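import Mathlib

set_option autoImplicit false

/-! Rotor walk: final configurations, stationary measures and conserved quantities. -/

namespace Pool.Agent.V11324.Rotor

open MeasureTheory Filter Topology
open scoped ENNReal

noncomputable section

attribute [local instance] Classical.propDecidable

variable {V : Type} {G : SimpleGraph V}

/-- A rotor configuration assigns to every vertex one of its neighbours. -/
abbrev Config (G : SimpleGraph V) : Type := (x : V) → G.neighborSet x

/-- One step of rotor walk: turn the rotor at the current position and follow it. -/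
def step (τ : (x : V) → Equiv.Perm (G.neighborSet x)) (s : V × Config G) : V × Config G :=
  ((τ s.1 (s.2 s.1) : V), Function.update s.2 s.1 (τ s.1 (s.2 s.1)))

/-- Position and rotor configuration after `t` steps, started from `a` with configuration `ρ`. -/
def state (τ : (x : V) → Equiv.Perm (G.neighborSet x)) (a : V) (ρ : Config G) (t : ℕ) :
    V × Config G := (step τ)^[t] (a, ρ)

/-- Every vertex is visited finitely often. -/
def Transient (τ : (x : V) → Equiv.Perm (G.neighborSet x)) (a : V) (ρ : Config G) : Prop :=
  ∀ x, {t | (state τ a ρ t).1 = x}.Finite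

/-- The final rotor configuration: the eventual value of the rotor at `x` (if there is none, the
initial value is used). -/
def final (τ : (x : V) → Equiv.Perm (G.neighborSet x)) (a : V) (ρ : Config G) : Config G :=
  fun x => if h : ∃ e, ∀ᶠ t in atTop, (state τ a ρ t).2 x = e then h.choose else ρ x

/-- Infinite-step stationary measures. -/
structure IsStationary [MeasurableSpace V] (τ : (x : V) → Equiv.Perm (G.neighborSet x)) (a : V)
    (μ : Measure (Config G)) : Prop where
  prob : IsProbabilityMeasure μ
  transient : ∀ᵐ ρ ∂μ, Transient τ a ρ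
  law : ∀ A : Set (Config G), MeasurableSet A → μ {ρ | final τ a ρ ∈ A} = μ A

theorem state_succ (τ : (x : V) → Equiv.Perm (G.neighborSet x)) (a : V) (ρ : Config G) (t : ℕ) :
    state τ a ρ (t + 1) = step τ (state τ a ρ t) := Function.iterate_succ_apply' _ _ _

theorem eventually_eq_final {τ : (x : V) → Equiv.Perm (G.neighborSet x)} {a : V} {ρ : Config G}
    (h : Transient τ a ρ) (x : V) : ∀ᶠ t in atTop, (state τ a ρ t).2 x = final τ a ρ x := by
  have h1 : ∃ e, ∀ᶠ t in atTop, (state τ a ρ t).2 x = e := by
    obtain ⟨T, hT⟩ := (h x).bddAbove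
    refine ⟨(state τ a ρ (T + 1)).2 x, ?_⟩
    filter_upwards [eventually_ge_atTop (T + 1)] with t ht
    induction t, ht using Nat.le_induction with
    | base => rfl
    | succ t ht ih =>
      rw [state_succ, step]
      simp only
      rw [Function.update_of_ne, ih]
      rintro rfl
      have := hT (show t ∈ {t' | (state τ a ρ t').1 = (state τ a ρ t).1} from rfl)
      omega
  unfold final
  rw [dif_pos h1]
  exact h1.choose_spec

/-! ### Conserved quantities -/

/-- weights along a cycle -/
theorem exists_weights {N : Type} [Fintype N] [Nonempty N] (σ : Equiv.Perm N)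
    (horb : ∀ e e' : N, ∃ n : ℕ, σ^[n] e = e') (φ : N → ℝ) (hφ : ∃ n : ℤ, ∑ e, φ e = n) :
    ∃ w : N → ℝ, (∀ e, |w e| ≤ ∑ e, |φ e|) ∧ ∀ e, ∃ n : ℤ, w (σ e) - w e = φ (σ e) + n := by
  obtain ⟨e0⟩ := ‹Nonempty N›
  -- the first time `e` is reached
  let k : N → ℕ := fun e => Nat.find (horb e0 e)
  have hk : ∀ e, σ^[k e] e0 = e := fun e => Nat.find_spec (horb e0 e)
  have hkmin : ∀ e m, m < k e → σ^[m] e0 ≠ e := fun e m hm => Nat.find_min (horb e0 e) hm
  have hinj : ∀ e, Set.InjOn (fun j => σ^[j + 1] e0) (Finset.range (k e) : Set ℕ) := by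
    intro e i hi j hj hij
    rw [Finset.coe_range, Set.mem_Iio] at hi hj
    by_contra hne
    wlog hlt : i < j generalizing i j
    · exact this hj hi hij.symm (Ne.symm hne) (lt_of_le_of_ne (not_lt.1 hlt) (Ne.symm hne))
    -- then `e` is reached earlier
    have h1 : σ^[k e - (j - i)] e0 = e := by
      have h2 : k e = (k e - (j + 1)) + (j + 1) := by omega
      have h3 : k e - (j - i) = (k e - (j + 1)) + (i + 1) := by omega
      have h4 := hk e
      rw [h2, Function.iterate_add_apply] at h4
      rw [h3, Function.iterate_add_apply]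
      have h5 : σ^[i + 1] e0 = σ^[j + 1] e0 := hij
      rw [h5, h4]
    exact hkmin e _ (by omega) h1
  refine ⟨fun e => ∑ j ∈ Finset.range (k e), φ (σ^[j + 1] e0), ?_, ?_⟩
  · intro e
    calc |∑ j ∈ Finset.range (k e), φ (σ^[j + 1] e0)|
        ≤ ∑ j ∈ Finset.range (k e), |φ (σ^[j + 1] e0)| := Finset.abs_sum_le_sum_abs _ _
      _ = ∑ e' ∈ (Finset.range (k e)).image fun j => σ^[j + 1] e0, |φ e'| := by
          rw [Finset.sum_image (hinj e)]
      _ ≤ _ := Finset.sum_le_univ_sum_of_nonneg fun e' => abs_nonneg _
  · intro e
    by_cases h : σ e = e0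
    · -- a full turn
      have hk0 : k (σ e) = 0 := by
        rw [h]
        exact (Nat.find_eq_zero _).2 rfl
      have himg : (Finset.range (k e + 1)).image (fun j => σ^[j + 1] e0) = Finset.univ := by
        rw [Finset.eq_univ_iff_forall]
        intro e'
        rw [Finset.mem_image]
        have hper : σ^[k e + 1] e0 = e0 := by
          rw [Function.iterate_succ_apply', hk, h]
        by_cases h0 : k e' = 0
        · refine ⟨k e, by simp, ?_⟩
          rw [hper]
          have := hk e'
          rw [h0] at this
          exact this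
        · refine ⟨k e' - 1, ?_, ?_⟩
          · rw [Finset.mem_range]
            by_contra hlt
            have h2 : k e' = (k e' - (k e + 1)) + (k e + 1) := by omega
            have h3 := hk e'
            rw [h2, Function.iterate_add_apply, hper] at h3
            exact hkmin e' _ (by omega) h3
          · show σ^[k e' - 1 + 1] e0 = e'
            rw [show k e' - 1 + 1 = k e' by omega]
            exact hk e'
      have hinj' : Set.InjOn (fun j => σ^[j + 1] e0) (Finset.range (k e + 1) : Set ℕ) := by
        intro i hi j hj hij
        rw [Finset.coe_range, Set.mem_Iio] at hi hj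
        have h1 : σ (σ^[i] e0) = σ (σ^[j] e0) := by
          have h1' : σ^[i + 1] e0 = σ^[j + 1] e0 := hij
          rwa [Function.iterate_succ_apply', Function.iterate_succ_apply'] at h1'
        have h2 := σ.injective h1
        by_contra hne
        wlog hlt : i < j generalizing i j
        · exact this hj hi hij.symm h1.symm h2.symm (Ne.symm hne)
            (lt_of_le_of_ne (not_lt.1 hlt) (Ne.symm hne))
        have h3 : σ^[k e - (j - i)] e0 = e := by
          have h4 : k e = (k e - j) + j := by omega
          have h5 : k e - (j - i) = (k e - j) + i := by omega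
          have h6 := hk e
          rw [h4, Function.iterate_add_apply] at h6
          rw [h5, Function.iterate_add_apply, h2, h6]
        exact hkmin e _ (by omega) h3
      have hsum : ∑ j ∈ Finset.range (k e + 1), φ (σ^[j + 1] e0) = ∑ e, φ e := by
        rw [← himg, Finset.sum_image hinj']
      rw [Finset.sum_range_succ, Function.iterate_succ_apply', hk] at hsum
      obtain ⟨n, hn⟩ := hφ
      refine ⟨-n, ?_⟩
      show ∑ j ∈ Finset.range (k (σ e)), φ (σ^[j + 1] e0) -
        ∑ j ∈ Finset.range (k e), φ (σ^[j + 1] e0) = _
      rw [hk0, Finset.range_zero, Finset.sum_empty]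
      push_cast
      rw [← hn, ← hsum]
      ring
    · -- the next time
      have hk1 : k (σ e) = k e + 1 := by
        apply le_antisymm
        · apply Nat.find_min'
          rw [Function.iterate_succ_apply', hk]
        · by_contra hlt
          have h0 : k (σ e) ≠ 0 := by
            intro h0
            have := hk (σ e)
            rw [h0] at this
            exact h this.symm
          obtain ⟨m, hm⟩ := Nat.exists_eq_succ_of_ne_zero h0
          have h1 := hk (σ e)
          rw [hm, Function.iterate_succ_apply'] at h1
          exact hkmin e m (by omega) (σ.injective h1)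
      refine ⟨0, ?_⟩
      show ∑ j ∈ Finset.range (k (σ e)), φ (σ^[j + 1] e0) -
        ∑ j ∈ Finset.range (k e), φ (σ^[j + 1] e0) = _
      rw [hk1, Finset.sum_range_succ, Function.iterate_succ_apply', hk]
      push_cast
      ring

/-- the conserved sum -/
def total (w : (x : V) → G.neighborSet x → ℝ) (ρ : Config G) : ℝ := ∑' x, w x (ρ x)

theorem total_update {w : (x : V) → G.neighborSet x → ℝ} {b : V → ℝ} (hb : Summable b)
    (hw : ∀ x e, |w x e| ≤ b x) (ρ : Config G) (x : V) (e : G.neighborSet x) :
    total w (Function.update ρ x e) - total w ρ = w x e - w x (ρ x) := by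
  have hs : ∀ ρ : Config G, Summable fun y => w y (ρ y) := fun ρ =>
    Summable.of_norm_bounded hb fun y => hw y _
  unfold total
  rw [← (hs _).tsum_sub (hs _), tsum_eq_single x]
  · rw [Function.update_self]
  · intro y hy
    rw [Function.update_of_ne hy, sub_self]

theorem conservation {τ : (x : V) → Equiv.Perm (G.neighborSet x)} {a : V} {ρ : Config G}
    (htr : Transient τ a ρ) {h : V → ℝ} (hh : Summable h) {w : (x : V) → G.neighborSet x → ℝ}
    {b : V → ℝ} (hb : Summable b) (hw : ∀ x e, |w x e| ≤ b x)
    (hwτ : ∀ x e, ∃ n : ℤ, w x (τ x e) - w x e = h (τ x e) - h x + n) :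
    ∃ n : ℤ, total w (final τ a ρ) = total w ρ - h a + n := by
  set J : ℕ → ℝ := fun t => h (state τ a ρ t).1 - total w (state τ a ρ t).2 with hJ
  have hstep : ∀ t, ∃ n : ℤ, J t - J 0 = n := by
    intro t
    induction t with
    | zero => exact ⟨0, by simp⟩
    | succ t ih =>
      obtain ⟨n, hn⟩ := ih
      obtain ⟨m, hm⟩ := hwτ (state τ a ρ t).1 ((state τ a ρ t).2 (state τ a ρ t).1)
      refine ⟨n - m, ?_⟩
      have h1 := total_update hb hw (state τ a ρ t).2 (state τ a ρ t).1
        (τ (state τ a ρ t).1 ((state τ a ρ t).2 (state τ a ρ t).1))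
      have h2 : J (t + 1) = h (τ (state τ a ρ t).1 ((state τ a ρ t).2 (state τ a ρ t).1)) -
          total w (Function.update (state τ a ρ t).2 (state τ a ρ t).1
            (τ (state τ a ρ t).1 ((state τ a ρ t).2 (state τ a ρ t).1))) := by
        simp only [hJ]
        rw [state_succ]
        rfl
      have h3 : J t = h (state τ a ρ t).1 - total w (state τ a ρ t).2 := rfl
      push_cast
      rw [h2]
      linarith
  -- the limit
  have hX : Tendsto (fun t => (state τ a ρ t).1) atTop cofinite := by
    rw [← Nat.cofinite_eq_atTop]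
    intro s hs
    rw [mem_cofinite] at hs
    rw [mem_map, mem_cofinite]
    have : ((fun t => (state τ a ρ t).1) ⁻¹' s)ᶜ = ⋃ x ∈ sᶜ, {t | (state τ a ρ t).1 = x} := by
      ext t
      simp
    rw [this]
    exact hs.biUnion fun x _ => htr x
  have hh0 : Tendsto (fun t => h (state τ a ρ t).1) atTop (𝓝 0) :=
    hh.tendsto_cofinite_zero.comp hX
  have hc : Tendsto (fun t => total w (state τ a ρ t).2) atTop (𝓝 (total w (final τ a ρ))) := by
    refine tendsto_tsum_of_dominated_convergence hb ?_ ?_
    · intro x
      refine tendsto_const_nhds.congr' ?_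
      filter_upwards [eventually_eq_final htr x] with t ht
      rw [ht]
    · exact Eventually.of_forall fun t x => hw x _
  have hlim : Tendsto (fun t => J t - J 0) atTop (𝓝 (0 - total w (final τ a ρ) - J 0)) :=
    (hh0.sub hc).sub_const _
  have hmem : (0 - total w (final τ a ρ) - J 0) ∈ Set.range ((↑) : ℤ → ℝ) := by
    refine Int.isClosedEmbedding_coe_real.isClosed_range.mem_of_tendsto hlim
      (Eventually.of_forall fun t => ?_)
    obtain ⟨n, hn⟩ := hstep t
    exact ⟨n, hn.symm⟩
  obtain ⟨n, hn⟩ := hmem
  have h0 : J 0 = h a - total w ρ := rfl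
  refine ⟨-n, ?_⟩
  rw [h0] at hn
  push_cast
  linarith

end

end Pool.Agent.V11324.Rotor
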