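import Mathlib
import Pool.Agent.V11324.Rotor.Walk

set_option autoImplicit false

/-! Oriented wired uniform spanning forests. -/

namespace Pool.Agent.V11324.Rotor

open MeasureTheory Filter Topology
open scoped ENNReal

noncomputable section

attribute [local instance] Classical.propDecidable

variable {V : Type} (G : SimpleGraph V)

/-- The spanning forests of `G` oriented towards the complement of the finite set `K`: each
`x ∈ K` has one out-edge `(x, F x)`, and every oriented path leaves `K` (there is no oriented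
cycle). The function is the identity outside `K`. -/
def Forest (K : Finset V) : Set (V → V) :=
  {F | (∀ x ∈ K, G.Adj x (F x)) ∧ (∀ x, x ∉ K → F x = x) ∧ ∀ x, ∃ n : ℕ, F^[n] x ∉ K}

/-- The probability under the uniform measure on `Forest G K` that all edges of `B` belong to the
forest. -/
def ratio (K : Finset V) (B : Finset (V × V)) : ℝ :=
  ({F | F ∈ Forest G K ∧ ∀ p ∈ B, p.1 ∈ K ∧ F p.1 = p.2}.ncard : ℝ) / (Forest G K).ncard

/-- `ν` is the oriented wired uniform spanning forest: the limit of the uniform measures on the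
spanning forests oriented towards the complements of an exhausting sequence of finite sets. -/
structure IsOWUSF [MeasurableSpace V] (ν : Measure (Config G)) : Prop where
  prob : IsProbabilityMeasure ν
  lim : ∃ K : ℕ → Finset V, Monotone K ∧ (∀ x, ∃ R, x ∈ K R) ∧
    ∀ B : Finset (V × V), Tendsto (fun R => ratio G (K R) B) atTop
      (𝓝 (ν {ρ | ∀ p ∈ B, (ρ p.1 : V) = p.2}).toReal)

variable {G}

theorem finite_functions [G.LocallyFinite] (K : Finset V) :
    {F : V → V | (∀ x ∈ K, G.Adj x (F x)) ∧ ∀ x, x ∉ K → F x = x}.Finite := by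
  let Φ : ((x : {x // x ∈ K}) → G.neighborSet x.1) → V → V := fun f x =>
    if h : x ∈ K then f ⟨x, h⟩ else x
  refine (Set.finite_range Φ).subset ?_
  rintro F ⟨h1, h2⟩
  refine ⟨fun x => ⟨F x.1, h1 x.1 x.2⟩, ?_⟩
  funext x
  simp only [Φ]
  split_ifs with h
  · rfl
  · exact (h2 x h).symm

theorem finite_forest [G.LocallyFinite] (K : Finset V) : (Forest G K).Finite :=
  (finite_functions K).subset fun _ hF => ⟨hF.1, hF.2.1⟩

theorem iterate_stay {K : Finset V} {F : V → V} (hF : F ∈ Forest G K) {x : V} {n : ℕ}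
    (h : F^[n] x ∉ K) (m : ℕ) (hm : n ≤ m) : F^[m] x ∉ K := by
  induction m, hm using Nat.le_induction with
  | base => exact h
  | succ m hm ih => rw [Function.iterate_succ_apply', hF.2.1 _ ih]; exact ih

/-! ### Turning the edge of a leaf -/

theorem forest_update {K : Finset V} {F : V → V} (hF : F ∈ Forest G K) {x : V} (hx : x ∈ K)
    (hleaf : ∀ y, F y ≠ x) {e : V} (he : G.Adj x e) : Function.update F x e ∈ Forest G K := by
  have hit : ∀ y, y ≠ x → ∀ n, (Function.update F x e)^[n] y = F^[n] y ∧ F^[n] y ≠ x := by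
    intro y hy n
    induction n with
    | zero => exact ⟨rfl, hy⟩
    | succ n ih =>
      rw [Function.iterate_succ_apply', Function.iterate_succ_apply', ih.1]
      exact ⟨Function.update_of_ne ih.2 _ _, hleaf _⟩
  refine ⟨?_, ?_, ?_⟩
  · intro y hy
    by_cases h : y = x
    · rw [h, Function.update_self]; exact he
    · rw [Function.update_of_ne h]; exact hF.1 y hy
  · intro y hy
    rw [Function.update_of_ne (by rintro rfl; exact hy hx)]
    exact hF.2.1 y hy
  · intro y
    by_cases h : y = x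
    · obtain ⟨n, hn⟩ := hF.2.2 e
      refine ⟨n + 1, ?_⟩
      rw [Function.iterate_succ_apply, h, Function.update_self, (hit e he.ne' n).1]
      exact hn
    · obtain ⟨n, hn⟩ := hF.2.2 y
      exact ⟨n, by rw [(hit y h n).1]; exact hn⟩

theorem leaf_of_neighbors {K : Finset V} {F : V → V} (hF : F ∈ Forest G K) {x : V} (hx : x ∈ K)
    (h : ∀ y, G.Adj x y → F y ≠ x) (y : V) : F y ≠ x := by
  intro hy
  by_cases hyK : y ∈ K
  · have h1 := hF.1 y hyK
    rw [hy] at h1
    exact h y h1.symm hy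
  · rw [hF.2.1 y hyK] at hy
    rw [hy] at hyK
    exact hyK hx

theorem ncard_le_turn [G.LocallyFinite] {K : Finset V} {x : V} (hx : x ∈ K) (S : Finset V)
    (hxS : x ∉ S) (hNS : ∀ y, G.Adj x y → y ∈ S) (η : V → V) (hη : ∀ y, G.Adj x y → η y ≠ x)
    {e e' : V} (he' : G.Adj x e') :
    {F | F ∈ Forest G K ∧ (∀ y ∈ S, F y = η y) ∧ F x = e}.ncard ≤
      {F | F ∈ Forest G K ∧ (∀ y ∈ S, F y = η y) ∧ F x = e'}.ncard := by
  refine Set.ncard_le_ncard_of_injOn (fun F => Function.update F x e') ?_ ?_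
    ((finite_forest K).subset fun F hF => hF.1)
  · rintro F ⟨h1, h2, -⟩
    refine ⟨forest_update h1 hx (leaf_of_neighbors h1 hx fun y hy => ?_) he', ?_, ?_⟩
    · rw [h2 y (hNS y hy)]; exact hη y hy
    · intro y hy
      rw [Function.update_of_ne (by rintro rfl; exact hxS hy)]
      exact h2 y hy
    · rw [Function.update_self]
  · rintro F ⟨-, -, h3⟩ F' ⟨-, -, h3'⟩ h
    funext y
    by_cases hy : y = x
    · rw [hy, h3, h3']
    · have := congrFun h y
      simp only [Function.update_of_ne hy] at this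
      exact this

/-! ### Surgery -/

/-- surroundings of a vertex in which it can be made a leaf -/
structure Surround (G : SimpleGraph V) (x : V) (Λ : Finset V) : Prop where
  mem : x ∈ Λ
  nbr : ∀ y, G.Adj x y → y ∈ Λ
  tree : ∀ v ∈ Λ, v ≠ x → ∃ T : V → V, (∀ u ∈ Λ, u ≠ v → G.Adj u (T u) ∧ T u ∈ Λ ∧ T u ≠ x) ∧
    ∀ u ∈ Λ, ∃ n : ℕ, T^[n] u = v

theorem exists_last {K : Finset V} {F : V → V} (hF : F ∈ Forest G K) {x : V} {Λ : Finset V}
    (hx : x ∈ Λ) (hΛ : Λ ⊆ K) : ∃ n : ℕ, F^[n] x ∈ Λ ∧ ∀ m, n < m → F^[m] x ∉ Λ := by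
  obtain ⟨N, hN⟩ := hF.2.2 x
  have hfin : {n : ℕ | F^[n] x ∈ Λ}.Finite := by
    refine (Set.finite_lt_nat N).subset ?_
    intro n hn
    by_contra h
    exact iterate_stay hF hN n (not_lt.1 h) (hΛ hn)
  obtain ⟨n, hn, hmax⟩ := hfin.exists_maximal ⟨0, hx⟩
  refine ⟨n, hn, fun m hm h => ?_⟩
  have := hmax h hm.le
  omega

theorem exists_surgery {K : Finset V} {F : V → V} (hF : F ∈ Forest G K) {x : V} {Λ : Finset V}
    (hS : Surround G x Λ) (hΛ : Λ ⊆ K) : ∃ F' ∈ Forest G K, (∀ y, G.Adj x y → F' y ≠ x) ∧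
      ∀ u, u ∉ Λ → F' u = F u := by
  obtain ⟨n0, hn0, hlast⟩ := exists_last hF hS.mem hΛ
  set v := F^[n0] x with hv
  have hz : ∀ m, F^[m] (F v) ∉ Λ := by
    intro m
    have h1 := hlast (m + (n0 + 1)) (by omega)
    rw [Function.iterate_add_apply, Function.iterate_succ_apply'] at h1
    exact h1
  have hvx : v ≠ x := by
    intro h
    have h1 := hF.1 x (hΛ hS.mem)
    have h2 := hz 0
    rw [h] at h2
    exact h2 (hS.nbr _ h1)
  obtain ⟨T, hT, hTv⟩ := hS.tree v hn0 hvx
  let F' : V → V := fun u => if u ∈ Λ then (if u = v then F v else T u) else F u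
  have hout : ∀ u, u ∉ Λ → F' u = F u := fun u hu => if_neg hu
  have hv' : F' v = F v := by
    show (if v ∈ Λ then (if v = v then F v else T v) else F v) = F v
    rw [if_pos hn0, if_pos rfl]
  have hin : ∀ u ∈ Λ, u ≠ v → F' u = T u := by
    intro u hu huv
    simp only [F']; rw [if_pos hu, if_neg huv]
  have hA : ∀ m, F'^[m] (F v) = F^[m] (F v) := by
    intro m
    induction m with
    | zero => rfl
    | succ m ih => rw [Function.iterate_succ_apply', Function.iterate_succ_apply', ih,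
        hout _ (hz m)]
  have hB : ∀ n, ∀ u ∈ Λ, T^[n] u = v → ∃ m, F'^[m] u ∉ K := by
    have hB0 : ∃ m, F'^[m] v ∉ K := by
      obtain ⟨m, hm⟩ := hF.2.2 (F v)
      refine ⟨m + 1, ?_⟩
      rw [Function.iterate_succ_apply, hv', hA]
      exact hm
    intro n
    induction n with
    | zero => rintro u - rfl; exact hB0
    | succ n ih =>
      intro u hu hn
      by_cases huv : u = v
      · rw [huv]; exact hB0
      · rw [Function.iterate_succ_apply] at hn
        obtain ⟨m, hm⟩ := ih (T u) (hT u hu huv).2.1 hn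
        refine ⟨m + 1, ?_⟩
        rw [Function.iterate_succ_apply, hin u hu huv]
        exact hm
  have hC : ∀ n u, F^[n] u ∉ K → ∃ m, F'^[m] u ∉ K := by
    intro n
    induction n with
    | zero => intro u hu; exact ⟨0, hu⟩
    | succ n ih =>
      intro u hu
      by_cases huΛ : u ∈ Λ
      · obtain ⟨m, hm⟩ := hTv u huΛ
        exact hB m u huΛ hm
      · rw [Function.iterate_succ_apply] at hu
        obtain ⟨m, hm⟩ := ih _ hu
        refine ⟨m + 1, ?_⟩
        rw [Function.iterate_succ_apply, hout u huΛ]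
        exact hm
  refine ⟨F', ⟨?_, ?_, ?_⟩, ?_, hout⟩
  · intro u hu
    by_cases huΛ : u ∈ Λ
    · by_cases huv : u = v
      · rw [huv, hv']; exact hF.1 v (hΛ hn0)
      · rw [hin u huΛ huv]; exact (hT u huΛ huv).1
    · rw [hout u huΛ]; exact hF.1 u hu
  · intro u hu
    rw [hout u fun h => hu (hΛ h)]
    exact hF.2.1 u hu
  · intro u
    obtain ⟨n, hn⟩ := hF.2.2 u
    exact hC n u hn
  · intro y hy h
    have hyΛ := hS.nbr y hy
    by_cases hyv : y = v
    · rw [hyv, hv'] at h
      have := hz 0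
      rw [Function.iterate_zero, id, h] at this
      exact this hS.mem
    · rw [hin y hyΛ hyv] at h
      exact (hT y hyΛ hyv).2.2 h

theorem ncard_forest_le [G.LocallyFinite] {x : V} {Λ : Finset V} (hS : Surround G x Λ) :
    ∃ C : ℕ, ∀ K : Finset V, Λ ⊆ K → (Forest G K).ncard ≤
      {F | F ∈ Forest G K ∧ ∀ y, G.Adj x y → F y ≠ x}.ncard * C := by
  let R : Set ({u // u ∈ Λ} → V) := {φ | ∀ u, G.Adj u.1 (φ u)}
  have hR : R.Finite := by
    refine (Set.finite_range fun (f : (u : {u // u ∈ Λ}) → G.neighborSet u.1) u =>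
      (f u : V)).subset ?_
    intro φ hφ
    exact ⟨fun u => ⟨φ u, hφ u⟩, rfl⟩
  refine ⟨R.ncard, fun K hΛ => ?_⟩
  rw [← Set.ncard_prod]
  have hex : ∀ F : V → V, ∃ F' : V → V, F ∈ Forest G K → F' ∈ Forest G K ∧
      (∀ y, G.Adj x y → F' y ≠ x) ∧ ∀ u, u ∉ Λ → F' u = F u := by
    intro F
    by_cases hF : F ∈ Forest G K
    · obtain ⟨F', h1, h2, h3⟩ := exists_surgery hF hS hΛ
      exact ⟨F', fun _ => ⟨h1, h2, h3⟩⟩
    · exact ⟨F, fun h => absurd h hF⟩
  choose s hs using hex
  refine Set.ncard_le_ncard_of_injOn (fun F => (s F, fun u => F u.1)) ?_ ?_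
    (Set.Finite.prod ((finite_forest K).subset fun F hF => hF.1) hR)
  · intro F hF
    obtain ⟨h1, h2, h3⟩ := hs F hF
    exact ⟨⟨h1, h2⟩, fun u => hF.1 u.1 (hΛ u.2)⟩
  · intro F hF F' hF' h
    have h1 : s F = s F' := congrArg Prod.fst h
    have h2 := congrArg Prod.snd h
    funext u
    by_cases hu : u ∈ Λ
    · exact congrFun h2 ⟨u, hu⟩
    · rw [← (hs F hF).2.2 u hu, ← (hs F' hF').2.2 u hu, h1]

/-! ### The limit -/

variable [MeasurableSpace V]

omit [MeasurableSpace V] in
/-- a cylinder event, with the edge at `x` prescribed as well -/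
theorem ratio_cyl [G.LocallyFinite] {K : Finset V} {x : V} (S : Finset V) (hS : S ⊆ K)
    (hx : x ∈ K) (η : V → V) (e : V) :
    ratio G K (insert (x, e) (S.image fun y => (y, η y))) =
      ({F | F ∈ Forest G K ∧ (∀ y ∈ S, F y = η y) ∧ F x = e}.ncard : ℝ) /
        (Forest G K).ncard := by
  unfold ratio
  congr 3
  ext F
  constructor
  · rintro ⟨h1, h2⟩
    refine ⟨h1, fun y hy => ?_, ?_⟩
    · exact (h2 (y, η y) (Finset.mem_insert_of_mem (Finset.mem_image_of_mem _ hy))).2
    · exact (h2 (x, e) (Finset.mem_insert_self _ _)).2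
  · rintro ⟨h1, h2, h3⟩
    refine ⟨h1, fun p hp => ?_⟩
    rw [Finset.mem_insert, Finset.mem_image] at hp
    rcases hp with rfl | ⟨y, hy, rfl⟩
    · exact ⟨hx, h3⟩
    · exact ⟨hS hy, h2 y hy⟩

omit [MeasurableSpace V] in
theorem exists_large {K : ℕ → Finset V} (hmono : Monotone K) (hex : ∀ x, ∃ R, x ∈ K R)
    (S : Finset V) : ∀ᶠ R in atTop, S ⊆ K R := by
  have : ∀ᶠ R in atTop, ∀ y ∈ S, y ∈ K R := by
    rw [Filter.eventually_all_finset]
    intro y _
    obtain ⟨R, hR⟩ := hex y
    filter_upwards [eventually_ge_atTop R] with R' hR'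
    exact hmono hR' hR
  filter_upwards [this] with R hR y hy
  exact hR y hy

/-- turning the edge of a leaf, in the limit -/
theorem limit_turn [G.LocallyFinite] {ν : Measure (Config G)} (hν : IsOWUSF G ν) {x : V}
    (S : Finset V) (hxS : x ∉ S) (hNS : ∀ y, G.Adj x y → y ∈ S) (η : V → V)
    (hη : ∀ y, G.Adj x y → η y ≠ x) {e e' : V} (he : G.Adj x e) (he' : G.Adj x e') :
    ν {ρ | (∀ y ∈ S, (ρ y : V) = η y) ∧ (ρ x : V) = e} =
      ν {ρ | (∀ y ∈ S, (ρ y : V) = η y) ∧ (ρ x : V) = e'} := by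
  obtain ⟨hprob, K, hmono, hex, hlim⟩ := hν
  have hset : ∀ e : V, {ρ : Config G | (∀ y ∈ S, (ρ y : V) = η y) ∧ (ρ x : V) = e} =
      {ρ | ∀ p ∈ insert (x, e) (S.image fun y => (y, η y)), (ρ p.1 : V) = p.2} := by
    intro e
    ext ρ
    constructor
    · rintro ⟨h2, h3⟩ p hp
      rw [Finset.mem_insert, Finset.mem_image] at hp
      rcases hp with rfl | ⟨y, hy, rfl⟩
      · exact h3
      · exact h2 y hy
    · intro h
      exact ⟨fun y hy => h (y, η y) (Finset.mem_insert_of_mem (Finset.mem_image_of_mem _ hy)),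
        h (x, e) (Finset.mem_insert_self _ _)⟩
  have h1 := hlim (insert (x, e) (S.image fun y => (y, η y)))
  have h2 := hlim (insert (x, e') (S.image fun y => (y, η y)))
  rw [← hset] at h1 h2
  have h3 : ∀ᶠ R in atTop, ratio G (K R) (insert (x, e) (S.image fun y => (y, η y))) =
      ratio G (K R) (insert (x, e') (S.image fun y => (y, η y))) := by
    filter_upwards [exists_large hmono hex (insert x S)] with R hR
    have hx : x ∈ K R := hR (Finset.mem_insert_self _ _)
    have hS : S ⊆ K R := fun y hy => hR (Finset.mem_insert_of_mem hy)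
    rw [ratio_cyl S hS hx, ratio_cyl S hS hx]
    congr 2
    exact le_antisymm (ncard_le_turn hx S hxS hNS η hη he') (ncard_le_turn hx S hxS hNS η hη he)
  have h4 := tendsto_nhds_unique (h1.congr' h3) h2
  rwa [ENNReal.toReal_eq_toReal_iff' (measure_ne_top _ _) (measure_ne_top _ _)] at h4

/-- some leaf configuration around `x` has positive probability -/
theorem exists_leaf [G.LocallyFinite] {ν : Measure (Config G)} (hν : IsOWUSF G ν) {x : V}
    {Λ : Finset V} (hS : Surround G x Λ) : ∃ η : V → V, (∀ y, G.Adj x y → η y ≠ x) ∧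
      ν {ρ | ∀ y ∈ G.neighborFinset x, (ρ y : V) = η y} ≠ 0 := by
  obtain ⟨hprob, K, hmono, hex, hlim⟩ := hν
  obtain ⟨C, hC⟩ := ncard_forest_le hS
  -- assignments on the neighbours
  let A : Type := (y : {y // y ∈ G.neighborFinset x}) → G.neighborSet y.1
  let ext : A → V → V := fun f y => if h : y ∈ G.neighborFinset x then f ⟨y, h⟩ else y
  by_contra hcon
  push Not at hcon
  -- sum over assignments
  let L : Finset A := Finset.univ.filter fun f => ∀ y, G.Adj x y → ext f y ≠ x
  let B : A → Finset (V × V) := fun f => (G.neighborFinset x).image fun y => (y, ext f y)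
  have hsum : Tendsto (fun R => ∑ f ∈ L, ratio G (K R) (B f)) atTop (𝓝 0) := by
    have h1 : ∀ f ∈ L, Tendsto (fun R => ratio G (K R) (B f)) atTop (𝓝 0) := by
      intro f hf
      have h2 := hlim (B f)
      have h3 : {ρ : Config G | ∀ p ∈ B f, (ρ p.1 : V) = p.2} =
          {ρ | ∀ y ∈ G.neighborFinset x, (ρ y : V) = ext f y} := by
        ext ρ
        constructor
        · intro h y hy
          exact h (y, ext f y) (Finset.mem_image_of_mem _ hy)
        · intro h p hp
          obtain ⟨y, hy, rfl⟩ := Finset.mem_image.1 hp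
          exact h y hy
      rw [h3, hcon (ext f) (Finset.mem_filter.1 hf).2] at h2
      simpa using h2
    have := tendsto_finsetSum L h1
    simpa using this
  have hpos : ∀ᶠ R in atTop, 0 < (Forest G (K R)).ncard := by
    have h1 := hlim ∅
    have h2 : {ρ : Config G | ∀ p ∈ (∅ : Finset (V × V)), (ρ p.1 : V) = p.2} = Set.univ := by
      ext ρ; simp
    rw [h2, measure_univ, ENNReal.toReal_one] at h1
    filter_upwards [h1.eventually (lt_mem_nhds (show (0 : ℝ) < 1 by norm_num))] with R hR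
    by_contra h0
    have h3 : (Forest G (K R)).ncard = 0 := by omega
    rw [ratio, h3, Nat.cast_zero, div_zero] at hR
    exact lt_irrefl _ hR
  have hlow : ∀ᶠ R in atTop, 1 ≤ (C : ℝ) * ∑ f ∈ L, ratio G (K R) (B f) := by
    filter_upwards [exists_large hmono hex (Λ ∪ G.neighborFinset x), hpos] with R hR hp
    have hΛ : Λ ⊆ K R := fun y hy => hR (Finset.mem_union_left _ hy)
    have hN : ∀ y ∈ G.neighborFinset x, y ∈ K R := fun y hy => hR (Finset.mem_union_right _ hy)
    have h1 := hC (K R) hΛ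
    have h2 : {F | F ∈ Forest G (K R) ∧ ∀ y, G.Adj x y → F y ≠ x} ⊆
        ⋃ f ∈ L, {F | F ∈ Forest G (K R) ∧ ∀ p ∈ B f, p.1 ∈ K R ∧ F p.1 = p.2} := by
      rintro F ⟨hF, hF'⟩
      let f : A := fun y => ⟨F y.1, hF.1 y.1 (hN y.1 y.2)⟩
      have hf : ∀ y ∈ G.neighborFinset x, ext f y = F y := by
        intro y hy
        simp only [ext, f]
        rw [dif_pos hy]
      rw [Set.mem_iUnion₂]
      refine ⟨f, Finset.mem_filter.2 ⟨Finset.mem_univ _, fun y hy => ?_⟩, hF, fun p hp => ?_⟩
      · rw [hf y ((G.mem_neighborFinset _ _).2 hy)]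
        exact hF' y hy
      · obtain ⟨y, hy, rfl⟩ := Finset.mem_image.1 hp
        exact ⟨hN y hy, (hf y hy).symm⟩
    have h3 : {F | F ∈ Forest G (K R) ∧ ∀ y, G.Adj x y → F y ≠ x}.ncard ≤
        ∑ f ∈ L, {F | F ∈ Forest G (K R) ∧ ∀ p ∈ B f, p.1 ∈ K R ∧ F p.1 = p.2}.ncard := by
      refine (Set.ncard_le_ncard h2 ?_).trans (Finset.set_ncard_biUnion_le _ _)
      refine (finite_forest (G := G) (K R)).subset ?_
      intro F hF
      rw [Set.mem_iUnion₂] at hF
      obtain ⟨f, -, hF⟩ := hF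
      exact hF.1
    have h4 : ((Forest G (K R)).ncard : ℝ) ≤
        (∑ f ∈ L, {F | F ∈ Forest G (K R) ∧ ∀ p ∈ B f, p.1 ∈ K R ∧ F p.1 = p.2}.ncard : ℕ) * C := by
      exact_mod_cast h1.trans (Nat.mul_le_mul_right C h3)
    have hp' : (0 : ℝ) < (Forest G (K R)).ncard := by exact_mod_cast hp
    unfold ratio
    rw [← Finset.sum_div, mul_div_assoc', le_div_iff₀ hp', one_mul]
    push_cast at h4
    linarith
  have h5 := hsum.const_mul (C : ℝ)
  rw [mul_zero] at h5
  have h6 := ge_of_tendsto h5 hlow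
  linarith

end

end Pool.Agent.V11324.Rotor
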