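import Mathlib
import Pool.Agent.V11324.Rotor.Forest

set_option autoImplicit false

/-! A conserved quantity that is not constant gives several stationary measures. -/

namespace Pool.Agent.V11324.Rotor

open MeasureTheory Filter Topology ProbabilityTheory
open scoped ENNReal

noncomputable section

attribute [local instance] Classical.propDecidable

variable {V : Type} {G : SimpleGraph V} [Countable V] [MeasurableSpace V]
  [DiscreteMeasurableSpace V]

/-- finite measures on configurations that agree on large cylinders are equal -/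
theorem ext_cyl (I0 : Finset V) (μ₁ μ₂ : Measure (Config G)) [IsFiniteMeasure μ₁]
    [IsFiniteMeasure μ₂] (h : ∀ I : Finset V, I0 ⊆ I → ∀ ξ : Config G,
      μ₁ {ρ | ∀ y ∈ I, ρ y = ξ y} = μ₂ {ρ | ∀ y ∈ I, ρ y = ξ y}) : μ₁ = μ₂ := by
  by_cases hne : Nonempty (Config G)
  swap
  · rw [not_nonempty_iff] at hne
    exact Subsingleton.elim _ _
  obtain ⟨ρ₀⟩ := hne
  have hJ : ∀ J : Finset V, I0 ⊆ J → μ₁.map (Finset.restrict (π := fun x => G.neighborSet x) J) =
      μ₂.map (Finset.restrict (π := fun x => G.neighborSet x) J) := by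
    intro J hJ
    refine Measure.ext_of_singleton fun p => ?_
    rw [Measure.map_apply (Finset.measurable_restrict J) (MeasurableSet.singleton _),
      Measure.map_apply (Finset.measurable_restrict J) (MeasurableSet.singleton _)]
    let ξ : Config G := fun y => if hy : y ∈ J then p ⟨y, hy⟩ else ρ₀ y
    have e : (Finset.restrict (π := fun x => G.neighborSet x) J) ⁻¹' {p} =
        {ρ | ∀ y ∈ J, ρ y = ξ y} := by
      ext ρ
      rw [Set.mem_preimage, Set.mem_singleton_iff]
      constructor
      · intro h y hy
        have := congrFun h ⟨y, hy⟩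
        simp only [ξ]
        rw [dif_pos hy]
        exact this
      · intro h
        funext y
        have := h y.1 y.2
        simp only [ξ] at this
        rw [dif_pos y.2] at this
        exact this
    rw [e]
    exact h J hJ ξ
  have hI : ∀ I : Finset V, μ₁.map (Finset.restrict (π := fun x => G.neighborSet x) I) =
      μ₂.map (Finset.restrict (π := fun x => G.neighborSet x) I) := by
    intro I
    have h1 := hJ (I ∪ I0) Finset.subset_union_right
    have e : Finset.restrict (π := fun x => G.neighborSet x) I =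
        (Finset.restrict₂ (π := fun x => G.neighborSet x) Finset.subset_union_left) ∘
          Finset.restrict (π := fun x => G.neighborSet x) (I ∪ I0) := rfl
    rw [e, ← Measure.map_map (Finset.measurable_restrict₂ _) (Finset.measurable_restrict _), h1,
      Measure.map_map (Finset.measurable_restrict₂ _) (Finset.measurable_restrict _)]
  let P : (J : Finset V) → Measure ((j : J) → (fun x => (G.neighborSet x : Type)) j) := fun I =>
    μ₂.map (Finset.restrict (π := fun x => G.neighborSet x) I)
  have hfin : ∀ I : Finset V, IsFiniteMeasure (P I) := fun I => by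
    show IsFiniteMeasure (μ₂.map (Finset.restrict (π := fun x => G.neighborSet x) I))
    infer_instance
  have h1 : IsProjectiveLimit (α := fun x => (G.neighborSet x : Type)) μ₁ P := hI
  have h2 : IsProjectiveLimit (α := fun x => (G.neighborSet x : Type)) μ₂ P := fun _ => rfl
  exact h1.unique h2

theorem measurable_total {w : (x : V) → G.neighborSet x → ℝ} {b : V → ℝ} (hb : Summable b)
    (hw : ∀ x e, |w x e| ≤ b x) : Measurable (total (G := G) w) := by
  have h1 : ∀ ρ : Config G, HasSum (fun x => w x (ρ x)) (total w ρ) := fun ρ =>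
    (Summable.of_norm_bounded hb fun y => hw y _).hasSum
  refine measurable_of_tendsto_metrizable' (f := fun (s : Finset V) (ρ : Config G) =>
    ∑ x ∈ s, w x (ρ x)) (atTop : Filter (Finset V)) ?_ ?_
  · intro s
    refine Finset.measurable_sum _ fun x _ => ?_
    exact (measurable_of_countable (w x)).comp (measurable_pi_apply x)
  · rw [tendsto_pi_nhds]
    intro ρ
    exact h1 ρ

variable [G.LocallyFinite]

/-- **Main lemma.** -/
theorem not_unique (τ : (x : V) → Equiv.Perm (G.neighborSet x))
    (horb : ∀ x (e e' : G.neighborSet x), ∃ n : ℕ, (τ x)^[n] e = e') (a : V) (h : V → ℝ)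
    (hh : Summable h) (hb : Summable fun x => ∑ e : G.neighborSet x, |h e - h x|)
    (hΔ : ∀ x, ∃ n : ℤ, ∑ e : G.neighborSet x, (h e - h x) = n) (ha : ∃ n : ℤ, h a = n)
    (x : V) (e : G.neighborSet x) (hint : ∀ n : ℤ, h e - h x ≠ n) {Λ : Finset V}
    (hS : Surround G x Λ) (ν : Measure (Config G)) (hν : IsOWUSF G ν) :
    ¬ (IsStationary τ a ν ∧ ∀ μ, IsStationary τ a μ → μ = ν) := by
  rintro ⟨hst, huniq⟩
  have hprob := hst.prob
  -- the weights
  have hwex : ∀ x, ∃ w : G.neighborSet x → ℝ, (∀ e, |w e| ≤ ∑ e : G.neighborSet x, |h e - h x|) ∧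
      ∀ e, ∃ n : ℤ, w (τ x e) - w e = h (τ x e) - h x + n := by
    intro x
    by_cases hne : Nonempty (G.neighborSet x)
    · exact exists_weights (τ x) (horb x) (fun e => h e - h x) (hΔ x)
    · exact ⟨fun _ => 0, fun e => absurd ⟨e⟩ hne, fun e => absurd ⟨e⟩ hne⟩
  choose w hw hwτ using hwex
  have hmeas : Measurable (total (G := G) w) := measurable_total hb hw
  set Θ : Config G → ℝ := fun ρ => Int.fract (total w ρ) with hΘ
  have hΘm : Measurable Θ := measurable_fract.comp hmeas
  have hinv : ∀ ρ, Transient τ a ρ → Θ (final τ a ρ) = Θ ρ := by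
    intro ρ hρ
    obtain ⟨n, hn⟩ := conservation hρ hh hb hw hwτ
    obtain ⟨m, hm⟩ := ha
    have h1 : total w (final τ a ρ) = total w ρ + ((n - m : ℤ) : ℝ) := by
      rw [hn, hm]; push_cast; ring
    simp only [hΘ]
    rw [h1, Int.fract_add_intCast]
  -- zero-one law
  have h01 : ∀ U : Set ℝ, MeasurableSet U → (∀ᵐ ρ ∂ν, Θ ρ ∈ U) ∨ ∀ᵐ ρ ∂ν, Θ ρ ∉ U := by
    intro U hU
    set E : Set (Config G) := Θ ⁻¹' U with hE
    have hEm : MeasurableSet E := hΘm hU
    by_contra hcon
    push Not at hcon
    obtain ⟨hc1, hc2⟩ := hcon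
    have hE0 : ν E ≠ 0 := by
      intro h0
      exact hc2 (measure_eq_zero_iff_ae_notMem.1 h0)
    have hEc0 : ν Eᶜ ≠ 0 := by
      intro h0
      apply hc1
      filter_upwards [measure_eq_zero_iff_ae_notMem.1 h0] with ρ hρ
      by_contra h1
      exact hρ h1
    have hμ : IsStationary τ a (ν[|E]) := by
      refine ⟨cond_isProbabilityMeasure hE0, ?_, ?_⟩
      · exact (cond_absolutelyContinuous (μ := ν) (s := E)).ae_le hst.transient
      · intro A hA
        rw [cond_apply hEm, cond_apply hEm, ← hst.law (E ∩ A) (hEm.inter hA)]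
        congr 1
        refine measure_congr ?_
        filter_upwards [hst.transient] with ρ hρ
        have h1 := hinv ρ hρ
        refine propext ?_
        constructor
        · rintro ⟨h2, h3⟩
          refine ⟨?_, h3⟩
          show Θ (final τ a ρ) ∈ U
          rw [h1]; exact h2
        · rintro ⟨h2, h3⟩
          refine ⟨?_, h3⟩
          show Θ ρ ∈ U
          rw [← h1]; exact h2
    have h2 := huniq _ hμ
    apply hEc0
    rw [← h2, cond_apply hEm]
    simp
  obtain ⟨θ, hθ⟩ := Filter.exists_eventuallyEq_const_of_forall_separating MeasurableSet h01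
  -- a leaf configuration around `x`
  obtain ⟨η, hη, hην⟩ := exists_leaf hν hS
  set D : G.neighborSet x → Set (Config G) := fun e =>
    {ρ | (∀ y ∈ G.neighborFinset x, (ρ y : V) = η y) ∧ (ρ x : V) = e} with hD
  have hxN : x ∉ G.neighborFinset x := by
    rw [SimpleGraph.mem_neighborFinset]
    exact G.irrefl
  have hDeq : ∀ e e' : G.neighborSet x, ν (D e) = ν (D e') := fun e e' =>
    limit_turn hν (G.neighborFinset x) hxN (fun y hy => (G.mem_neighborFinset _ _).2 hy) η hη
      e.2 e'.2
  have hDm : ∀ e, MeasurableSet (D e) := by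
    intro e
    have h1 : D e = (⋂ y ∈ G.neighborFinset x, {ρ : Config G | (ρ y : V) = η y}) ∩
        {ρ : Config G | (ρ x : V) = e} := by
      ext ρ
      simp only [hD, Set.mem_inter_iff, Set.mem_iInter, Set.mem_ofPred_eq]
    rw [h1]
    have h2 : ∀ y (c : V), MeasurableSet {ρ : Config G | (ρ y : V) = c} := fun y c =>
      (measurable_subtype_coe.comp (measurable_pi_apply y)) (MeasurableSet.singleton c)
    exact (Finset.measurableSet_biInter _ fun y _ => h2 y _).inter (h2 x _)
  -- the weights at `x` are not all equal modulo one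
  obtain ⟨e₁, e₂, he₁₂⟩ : ∃ e₁ e₂ : G.neighborSet x, ∀ n : ℤ, w x e₁ - w x e₂ ≠ n := by
    refine ⟨e, (τ x).symm e, fun n hn => ?_⟩
    obtain ⟨m, hm⟩ := hwτ x ((τ x).symm e)
    rw [Equiv.apply_symm_apply] at hm
    apply hint (n - m)
    push_cast
    linarith
  set e₀ : G.neighborSet x := e
  let up : Config G → Config G := fun ρ => Function.update ρ x e₀
  have hup : Measurable up := by
    refine measurable_pi_lambda _ fun y => ?_
    by_cases hy : y = x
    · subst hy
      have : (fun ρ : Config G => up ρ y) = fun _ => e₀ := by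
        funext ρ; exact Function.update_self _ _ _
      rw [this]; exact measurable_const
    · have : (fun ρ : Config G => up ρ y) = fun ρ => ρ y := by
        funext ρ; exact Function.update_of_ne hy _ _
      rw [this]; exact measurable_pi_apply y
  let M : G.neighborSet x → Measure (Config G) := fun e => (ν.restrict (D e)).map up
  have hMeq : M e₁ = M e₂ := by
    refine ext_cyl (insert x (G.neighborFinset x)) _ _ fun I hI ξ => ?_
    have hxI : x ∈ I := hI (Finset.mem_insert_self _ _)
    have hNI : ∀ y, G.Adj x y → y ∈ I := fun y hy =>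
      hI (Finset.mem_insert_of_mem ((G.mem_neighborFinset _ _).2 hy))
    have hCm : MeasurableSet {ρ : Config G | ∀ y ∈ I, ρ y = ξ y} := by
      have h1 : {ρ : Config G | ∀ y ∈ I, ρ y = ξ y} = ⋂ y ∈ I, {ρ : Config G | ρ y = ξ y} := by
        ext ρ; simp
      rw [h1]
      exact Finset.measurableSet_biInter _ fun y _ =>
        (measurable_pi_apply y) (MeasurableSet.singleton _)
    have hM : ∀ e, M e {ρ | ∀ y ∈ I, ρ y = ξ y} =
        ν ({ρ | ∀ y ∈ I, Function.update ρ x e₀ y = ξ y} ∩ D e) := by
      intro e
      rw [Measure.map_apply hup hCm, Measure.restrict_apply (hup hCm)]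
      rfl
    rw [hM, hM]
    by_cases h1 : ξ x = e₀
    swap
    · have h2 : {ρ : Config G | ∀ y ∈ I, Function.update ρ x e₀ y = ξ y} = ∅ := by
        ext ρ
        simp only [Set.mem_ofPred_eq, Set.mem_empty_iff_false, iff_false]
        intro h3
        have h4 := h3 x hxI
        rw [Function.update_self] at h4
        exact h1 h4.symm
      rw [h2]
      simp
    by_cases h2 : ∀ y, G.Adj x y → (ξ y : V) = η y
    swap
    · push Not at h2
      obtain ⟨y, hy, hyη⟩ := h2
      have h3 : ∀ e, {ρ : Config G | ∀ y ∈ I, Function.update ρ x e₀ y = ξ y} ∩ D e = ∅ := by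
        intro e
        ext ρ
        simp only [Set.mem_inter_iff, Set.mem_ofPred_eq, Set.mem_empty_iff_false, iff_false]
        rintro ⟨h3, h4⟩
        have h5 := h3 y (hNI y hy)
        rw [Function.update_of_ne hy.ne'] at h5
        apply hyη
        rw [← h5]
        exact h4.1 y ((G.mem_neighborFinset _ _).2 hy)
      rw [h3, h3]
    have h3 : ∀ e : G.neighborSet x, {ρ : Config G | ∀ y ∈ I, Function.update ρ x e₀ y = ξ y} ∩
        D e = {ρ | (∀ y ∈ I.erase x, (ρ y : V) = ξ y) ∧ (ρ x : V) = e} := by
      intro e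
      ext ρ
      constructor
      · rintro ⟨h3, h4⟩
        refine ⟨fun y hy => ?_, h4.2⟩
        rw [Finset.mem_erase] at hy
        have h5 := h3 y hy.2
        rw [Function.update_of_ne hy.1] at h5
        rw [h5]
      · rintro ⟨h3, h4⟩
        refine ⟨fun y hy => ?_, fun y hy => ?_, h4⟩
        · by_cases hyx : y = x
          · subst hyx
            rw [Function.update_self]; exact h1.symm
          · rw [Function.update_of_ne hyx]
            exact Subtype.ext (h3 y (Finset.mem_erase.2 ⟨hyx, hy⟩))
        · rw [SimpleGraph.mem_neighborFinset] at hy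
          rw [h3 y (Finset.mem_erase.2 ⟨hy.ne', hNI y hy⟩)]
          exact h2 y hy
    rw [h3, h3]
    refine limit_turn hν (I.erase x) (by simp) (fun y hy => ?_) (fun y => ξ y) (fun y hy => ?_)
      e₁.2 e₂.2
    · exact Finset.mem_erase.2 ⟨hy.ne', hNI y hy⟩
    · rw [h2 y hy]; exact hη y hy
  -- the value of the conserved quantity
  let E : G.neighborSet x → Set (Config G) := fun e =>
    {ρ | Int.fract (total w ρ - w x e₀ + w x e) = θ}
  have hEm : ∀ e, MeasurableSet (E e) := by
    intro e
    have h1 : Measurable fun ρ : Config G => Int.fract (total w ρ - w x e₀ + w x e) :=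
      measurable_fract.comp ((hmeas.sub_const _).add_const _)
    exact h1 (MeasurableSet.singleton θ)
  have hME : ∀ e, ∀ᵐ ρ ∂(M e), ρ ∈ E e := by
    intro e
    refine (ae_map_iff hup.aemeasurable (hEm e)).2 ?_
    rw [ae_restrict_iff' (hDm e)]
    filter_upwards [hθ] with ρ hρ hρD
    have h1 := total_update hb hw ρ x e₀
    have h2 : ρ x = e := Subtype.ext hρD.2
    rw [h2] at h1
    show Int.fract (total w (Function.update ρ x e₀) - w x e₀ + w x e) = θ
    have h3 : total w (Function.update ρ x e₀) - w x e₀ + w x e = total w ρ := by linarith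
    rw [h3]
    exact hρ
  have hM0 : ∀ᵐ ρ ∂(M e₁), False := by
    have h1 := hME e₁
    have h2 := hME e₂
    rw [← hMeq] at h2
    filter_upwards [h1, h2] with ρ h1 h2
    have h3 : Int.fract (total w ρ - w x e₀ + w x e₁) =
        Int.fract (total w ρ - w x e₀ + w x e₂) := h1.trans h2.symm
    obtain ⟨n, hn⟩ := Int.fract_eq_fract.1 h3
    exact he₁₂ n (by linarith)
  have hD0 : ν (D e₁) = 0 := by
    have h1 : M e₁ Set.univ = 0 := by
      rw [ae_iff] at hM0
      simpa using hM0
    rw [Measure.map_apply hup MeasurableSet.univ, Set.preimage_univ,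
      Measure.restrict_apply MeasurableSet.univ, Set.univ_inter] at h1
    exact h1
  apply hην
  refine measure_mono_null (t := ⋃ e, D e) ?_ (measure_iUnion_null fun e => ?_)
  · intro ρ hρ
    exact Set.mem_iUnion.2 ⟨ρ x, hρ, rfl⟩
  · rw [hDeq e e₁, hD0]

end

end Pool.Agent.V11324.Rotor
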