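import Mathlib
import Pool.Agent.V11324.Rotor.Main

set_option autoImplicit false

/-! The lattice graph. -/

namespace Pool.Agent.V11324.Rotor

noncomputable section

attribute [local instance] Classical.propDecidable

/-- The nearest-neighbour graph of the lattice. -/
def latticeGraph (d : ℕ) : SimpleGraph (Fin d → ℤ) where
  Adj x y := ∑ i, |x i - y i| = 1
  symm := ⟨fun x y h => by
    rw [← h]
    exact Finset.sum_congr rfl fun i _ => abs_sub_comm _ _⟩
  loopless := ⟨fun x h => by simp at h⟩

variable {d : ℕ}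

/-- the unit vectors -/
def dir (s : Fin d × Bool) : Fin d → ℤ := if s.2 then Pi.single s.1 1 else -Pi.single s.1 1

/-- the opposite direction -/
def opp (s : Fin d × Bool) : Fin d × Bool := (s.1, !s.2)

theorem dir_opp (s : Fin d × Bool) : dir (opp s) = -dir s := by
  obtain ⟨i, b⟩ := s
  cases b <;> simp [dir, opp]

theorem dir_apply (s : Fin d × Bool) (j : Fin d) :
    dir s j = if j = s.1 then (if s.2 then 1 else -1) else 0 := by
  obtain ⟨i, b⟩ := s
  cases b <;> by_cases h : j = i <;> simp [dir, h]

theorem dir_ne_zero (s : Fin d × Bool) : dir s ≠ 0 := by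
  intro h
  have := congrFun h s.1
  rw [dir_apply] at this
  simp at this
  split_ifs at this <;> omega

theorem dir_injective : Function.Injective (dir (d := d)) := by
  rintro ⟨i, b⟩ ⟨j, c⟩ h
  have h1 := congrFun h i
  rw [dir_apply, dir_apply] at h1
  simp only [if_true] at h1
  by_cases hij : i = j
  · subst hij
    simp only [if_true] at h1
    cases b <;> cases c <;> simp at h1 ⊢
  · rw [if_neg hij] at h1
    cases b <;> simp at h1

theorem adj_iff (x y : Fin d → ℤ) : (latticeGraph d).Adj x y ↔ ∃ s, y = x + dir s := by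
  constructor
  · intro h
    have h' : ∑ i, |x i - y i| = 1 := h
    obtain ⟨i, hi⟩ : ∃ i, x i - y i ≠ 0 := by
      by_contra hcon
      push Not at hcon
      simp [hcon] at h'
    have h1 : 1 ≤ |x i - y i| := Int.one_le_abs hi
    have h2 : |x i - y i| + ∑ j ∈ Finset.univ.erase i, |x j - y j| = 1 := by
      rw [Finset.add_sum_erase _ (fun j => |x j - y j|) (Finset.mem_univ i)]
      exact h'
    have h3 : 0 ≤ ∑ j ∈ Finset.univ.erase i, |x j - y j| :=
      Finset.sum_nonneg fun j _ => abs_nonneg _
    have h4 : ∑ j ∈ Finset.univ.erase i, |x j - y j| = 0 := by omega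
    have h5 : |x i - y i| = 1 := by omega
    have h6 : ∀ j, j ≠ i → x j - y j = 0 := by
      intro j hj
      have := (Finset.sum_eq_zero_iff_of_nonneg fun j _ => abs_nonneg (x j - y j)).1 h4 j
        (Finset.mem_erase.2 ⟨hj, Finset.mem_univ _⟩)
      exact abs_eq_zero.1 this
    rcases (abs_eq (by norm_num)).1 h5 with h7 | h7
    · refine ⟨(i, false), ?_⟩
      funext j
      rw [Pi.add_apply, dir_apply]
      by_cases hj : j = i
      · subst hj
        simp
        omega
      · have := h6 j hj
        simp [hj]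
        omega
    · refine ⟨(i, true), ?_⟩
      funext j
      rw [Pi.add_apply, dir_apply]
      by_cases hj : j = i
      · subst hj
        simp
        omega
      · have := h6 j hj
        simp [hj]
        omega
  · rintro ⟨s, rfl⟩
    show ∑ i, |x i - (x + dir s) i| = 1
    have : ∀ i, |x i - (x + dir s) i| = if i = s.1 then 1 else 0 := by
      intro i
      rw [Pi.add_apply, dir_apply]
      split_ifs <;> simp
    rw [Finset.sum_congr rfl fun i _ => this i]
    simp

theorem neighborSet_eq (x : Fin d → ℤ) :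
    (latticeGraph d).neighborSet x = Set.range fun s => x + dir s := by
  ext y
  rw [SimpleGraph.mem_neighborSet, adj_iff, Set.mem_range]
  constructor
  · rintro ⟨s, rfl⟩; exact ⟨s, rfl⟩
  · rintro ⟨s, rfl⟩; exact ⟨s, rfl⟩

instance : (latticeGraph d).LocallyFinite := fun x =>
  Set.Finite.fintype (by rw [neighborSet_eq]; exact Set.finite_range _)

theorem sum_neighbors {M : Type*} [AddCommMonoid M] (x : Fin d → ℤ) (φ : (Fin d → ℤ) → M) :
    ∑ e : (latticeGraph d).neighborSet x, φ e = ∑ s, φ (x + dir s) := by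
  let F : Fin d × Bool → (latticeGraph d).neighborSet x := fun s =>
    ⟨x + dir s, (adj_iff _ _).2 ⟨s, rfl⟩⟩
  have hF : Function.Bijective F := by
    constructor
    · intro s s' h
      have h1 := congrArg Subtype.val h
      exact dir_injective (add_left_cancel h1)
    · rintro ⟨y, hy⟩
      obtain ⟨s, rfl⟩ := (adj_iff _ _).1 hy
      exact ⟨s, rfl⟩
  exact (hF.sum_comp fun e => φ e).symm

/-! ### Surroundings -/

section Surround

variable {V : Type} {G : SimpleGraph V}

/-- there is a chain of length `n` from `u` to `v` -/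
def reach (R : V → V → Prop) (v : V) : ℕ → V → Prop
  | 0, u => u = v
  | n + 1, u => ∃ b, R u b ∧ reach R v n b

theorem surround_of_connected {x : V} {Λ : Finset V} (hx : x ∈ Λ) (hnbr : ∀ y, G.Adj x y → y ∈ Λ)
    (hne : ∃ y, G.Adj x y) (hconn : ∀ u ∈ Λ, u ≠ x → ∀ v ∈ Λ, v ≠ x →
      Relation.ReflTransGen (fun a b => G.Adj a b ∧ b ∈ Λ ∧ b ≠ x) u v) : Surround G x Λ := by
  refine ⟨hx, hnbr, fun v hv hvx => ?_⟩
  set R : V → V → Prop := fun a b => G.Adj a b ∧ b ∈ Λ ∧ b ≠ x with hR
  have hreach : ∀ u, Relation.ReflTransGen R u v → ∃ n, reach R v n u := by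
    intro u h
    induction h using Relation.ReflTransGen.head_induction_on with
    | refl => exact ⟨0, rfl⟩
    | head h _ ih =>
      obtain ⟨n, hn⟩ := ih
      exact ⟨n + 1, _, h, hn⟩
  let N : V → ℕ := fun u => if h : ∃ n, reach R v n u then Nat.find h else 0
  have hN : ∀ u n, reach R v n u → N u ≤ n := by
    intro u n h
    simp only [N]
    rw [dif_pos ⟨n, h⟩]
    exact Nat.find_min' _ h
  have hstep : ∀ u, ∃ b, (u ∈ Λ → u ≠ x → u ≠ v → R u b ∧ N b < N u) ∧
      (u = x → G.Adj u b ∧ b ∈ Λ ∧ b ≠ x) := by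
    intro u
    by_cases hux : u = x
    · obtain ⟨y, hy⟩ := hne
      refine ⟨y, fun _ h => absurd hux h, fun _ => ?_⟩
      rw [hux]
      exact ⟨hy, hnbr y hy, hy.ne'⟩
    · by_cases hu : u ∈ Λ ∧ u ≠ v
      · have h1 := hreach u (hconn u hu.1 hux v hv hvx)
        have h2 : reach R v (N u) u := by
          simp only [N]
          rw [dif_pos h1]
          exact Nat.find_spec h1
        have h3 : N u ≠ 0 := by
          intro h0
          rw [h0] at h2
          exact hu.2 h2
        obtain ⟨m, hm⟩ := Nat.exists_eq_succ_of_ne_zero h3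
        rw [hm] at h2
        obtain ⟨b, hb, hb'⟩ := h2
        refine ⟨b, fun _ _ _ => ⟨hb, ?_⟩, fun h => absurd h hux⟩
        have := hN b m hb'
        omega
      · exact ⟨u, fun h _ h' => absurd ⟨h, h'⟩ hu, fun h => absurd h hux⟩
  choose T hT hTx using hstep
  refine ⟨T, ?_, ?_⟩
  · intro u hu huv
    by_cases hux : u = x
    · exact hTx u hux
    · exact (hT u hu hux huv).1
  · have key : ∀ n u, u ∈ Λ → u ≠ x → N u ≤ n → ∃ m : ℕ, T^[m] u = v := by
      intro n
      induction n with
      | zero =>
        intro u hu hux hn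
        by_cases huv : u = v
        · exact ⟨0, huv⟩
        · have := (hT u hu hux huv).2
          omega
      | succ n ih =>
        intro u hu hux hn
        by_cases huv : u = v
        · exact ⟨0, huv⟩
        · obtain ⟨h1, h2⟩ := hT u hu hux huv
          obtain ⟨m, hm⟩ := ih (T u) h1.2.1 h1.2.2 (by omega)
          exact ⟨m + 1, by rw [Function.iterate_succ_apply]; exact hm⟩
    intro u hu
    by_cases hux : u = x
    · obtain ⟨h1, h2, h3⟩ := hTx u hux
      obtain ⟨m, hm⟩ := key _ (T u) h2 h3 le_rfl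
      exact ⟨m + 1, by rw [Function.iterate_succ_apply]; exact hm⟩
    · exact key _ u hu hux le_rfl

end Surround

theorem exists_surround (hd : 2 ≤ d) (x : Fin d → ℤ) : ∃ Λ, Surround (latticeGraph d) x Λ := by
  let Λ : Finset (Fin d → ℤ) := insert x ((Finset.univ.image fun s => x + dir s) ∪
    Finset.univ.image fun p : (Fin d × Bool) × (Fin d × Bool) => x + dir p.1 + dir p.2)
  have h1 : ∀ s, x + dir s ∈ Λ := fun s => Finset.mem_insert_of_mem
    (Finset.mem_union_left _ (Finset.mem_image_of_mem _ (Finset.mem_univ s)))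
  have h2 : ∀ s s', x + dir s + dir s' ∈ Λ := fun s s' => Finset.mem_insert_of_mem
    (Finset.mem_union_right _ (Finset.mem_image.2 ⟨(s, s'), Finset.mem_univ _, rfl⟩))
  have h1x : ∀ s, x + dir s ≠ x := fun s h => dir_ne_zero s (by simpa using h)
  set R : (Fin d → ℤ) → (Fin d → ℤ) → Prop :=
    fun a b => (latticeGraph d).Adj a b ∧ b ∈ Λ ∧ b ≠ x with hR
  -- two neighbours
  have h3 : ∀ s s', dir s + dir s' ≠ 0 →
      Relation.ReflTransGen R (x + dir s) (x + dir s') := by
    intro s s' hss
    have h4 : x + dir s + dir s' ≠ x := by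
      intro h
      apply hss
      have : x + (dir s + dir s') = x := by rw [← add_assoc]; exact h
      simpa using this
    refine Relation.ReflTransGen.head (b := x + dir s + dir s') ⟨(adj_iff _ _).2 ⟨s', rfl⟩,
      h2 s s', h4⟩ (Relation.ReflTransGen.single ⟨?_, h1 s', h1x s'⟩)
    refine (adj_iff _ _).2 ⟨opp s, ?_⟩
    rw [dir_opp]; abel
  have h4 : ∀ s s', Relation.ReflTransGen R (x + dir s) (x + dir s') := by
    intro s s'
    by_cases h : dir s + dir s' = 0
    · -- a third direction
      obtain ⟨j, hj⟩ : ∃ j : Fin d, j ≠ s.1 := by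
        by_cases h0 : s.1 = ⟨0, by omega⟩
        · refine ⟨⟨1, by omega⟩, ?_⟩
          rw [h0]
          intro h1
          have := congrArg Fin.val h1
          simp at this
        · exact ⟨⟨0, by omega⟩, fun h => h0 h.symm⟩
      have hs' : s'.1 = s.1 := by
        by_contra hne
        have := congrFun h s.1
        rw [Pi.add_apply, dir_apply, dir_apply, if_pos rfl, if_neg (Ne.symm hne)] at this
        simp at this
        split_ifs at this <;> omega
      have h5 : ∀ t : Fin d × Bool, t.1 = s.1 → dir t + dir (j, true) ≠ 0 ∧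
          dir (j, true) + dir t ≠ 0 := by
        intro t ht
        have : dir t + dir (j, true) ≠ 0 := by
          intro h0
          have := congrFun h0 j
          rw [Pi.add_apply, dir_apply, dir_apply, if_neg (by rw [ht]; exact hj)] at this
          simp at this
        exact ⟨this, by rwa [add_comm]⟩
      exact (h3 s (j, true) (h5 s rfl).1).trans (h3 (j, true) s' (h5 s' hs').2)
    · exact h3 s s' h
  -- every vertex is joined with a neighbour in both directions
  have h5 : ∀ u ∈ Λ, u ≠ x → ∃ s, Relation.ReflTransGen R u (x + dir s) ∧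
      Relation.ReflTransGen R (x + dir s) u := by
    intro u hu hux
    rw [Finset.mem_insert, Finset.mem_union, Finset.mem_image, Finset.mem_image] at hu
    rcases hu with rfl | ⟨s, -, rfl⟩ | ⟨⟨s, s'⟩, -, rfl⟩
    · exact absurd rfl hux
    · exact ⟨s, Relation.ReflTransGen.refl, Relation.ReflTransGen.refl⟩
    · refine ⟨s, Relation.ReflTransGen.single ⟨?_, h1 s, h1x s⟩,
        Relation.ReflTransGen.single ⟨(adj_iff _ _).2 ⟨s', rfl⟩, h2 s s', hux⟩⟩
      refine (adj_iff _ _).2 ⟨opp s', ?_⟩
      rw [dir_opp]; abel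
  refine ⟨Λ, surround_of_connected (Finset.mem_insert_self _ _) ?_ ?_ ?_⟩
  · intro y hy
    obtain ⟨s, rfl⟩ := (adj_iff _ _).1 hy
    exact h1 s
  · exact ⟨x + dir (⟨0, by omega⟩, true), (adj_iff _ _).2 ⟨_, rfl⟩⟩
  · intro u hu hux v hv hvx
    obtain ⟨s, hs, -⟩ := h5 u hu hux
    obtain ⟨s', -, hs'⟩ := h5 v hv hvx
    exact (hs.trans (h4 s s')).trans hs'

end

end Pool.Agent.V11324.Rotor
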