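import Mathlib
import Pool.Agent.V11324.Rotor.Lattice

set_option autoImplicit false

/-! A summable function on the lattice with integral Laplacian and non-integral values. -/

namespace Pool.Agent.V11324.Rotor

open Filter Topology
open scoped ENNReal

noncomputable section

attribute [local instance] Classical.propDecidable

/-! ### Bounded operators on functions -/

section Bounded

variable {V : Type}

/-- the `ℓ¹` norm -/
def l1 (φ : V → ℝ) : ℝ≥0∞ := ∑' x, ‖φ x‖ₑ

/-- bounded operators -/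
def BB (B : Module.End ℝ (V → ℝ)) (C : ℝ) : Prop :=
  0 ≤ C ∧ ∀ φ, l1 (B φ) ≤ ENNReal.ofReal C * l1 φ

theorem BB.mono {B : Module.End ℝ (V → ℝ)} {C C' : ℝ} (h : BB B C) (hC : C ≤ C') : BB B C' :=
  ⟨h.1.trans hC, fun φ => (h.2 φ).trans (mul_le_mul_left (ENNReal.ofReal_le_ofReal hC) _)⟩

theorem BB.one : BB (1 : Module.End ℝ (V → ℝ)) 1 :=
  ⟨zero_le_one, fun φ => by rw [ENNReal.ofReal_one, one_mul]; exact le_rfl⟩

theorem BB.zero : BB (0 : Module.End ℝ (V → ℝ)) 0 :=
  ⟨le_rfl, fun φ => by simp [l1]⟩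

theorem BB.mul {B B' : Module.End ℝ (V → ℝ)} {C C' : ℝ} (h : BB B C) (h' : BB B' C') :
    BB (B * B') (C * C') := by
  refine ⟨mul_nonneg h.1 h'.1, fun φ => ?_⟩
  calc l1 ((B * B') φ) = l1 (B (B' φ)) := rfl
    _ ≤ ENNReal.ofReal C * l1 (B' φ) := h.2 _
    _ ≤ ENNReal.ofReal C * (ENNReal.ofReal C' * l1 φ) := mul_le_mul_right (h'.2 φ) _
    _ = ENNReal.ofReal (C * C') * l1 φ := by rw [ENNReal.ofReal_mul h.1, mul_assoc]

theorem BB.pow {B : Module.End ℝ (V → ℝ)} {C : ℝ} (h : BB B C) (n : ℕ) : BB (B ^ n) (C ^ n) := by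
  induction n with
  | zero => rw [pow_zero, pow_zero]; exact BB.one
  | succ n ih => rw [pow_succ, pow_succ]; exact ih.mul h

theorem BB.pow_one {B : Module.End ℝ (V → ℝ)} (h : BB B 1) (n : ℕ) : BB (B ^ n) 1 := by
  have := h.pow n
  rwa [one_pow] at this

theorem BB.add {B B' : Module.End ℝ (V → ℝ)} {C C' : ℝ} (h : BB B C) (h' : BB B' C') :
    BB (B + B') (C + C') := by
  refine ⟨add_nonneg h.1 h'.1, fun φ => ?_⟩
  calc l1 ((B + B') φ) ≤ l1 (B φ) + l1 (B' φ) := by
        unfold l1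
        rw [← ENNReal.tsum_add]
        exact ENNReal.tsum_le_tsum fun x => enorm_add_le _ _
    _ ≤ ENNReal.ofReal C * l1 φ + ENNReal.ofReal C' * l1 φ := add_le_add (h.2 φ) (h'.2 φ)
    _ = ENNReal.ofReal (C + C') * l1 φ := by rw [ENNReal.ofReal_add h.1 h'.1, add_mul]

theorem BB.smul {B : Module.End ℝ (V → ℝ)} {C : ℝ} (c : ℝ) (h : BB B C) :
    BB (c • B) (|c| * C) := by
  refine ⟨mul_nonneg (abs_nonneg _) h.1, fun φ => ?_⟩
  calc l1 ((c • B) φ) = ENNReal.ofReal |c| * l1 (B φ) := by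
        unfold l1
        rw [← ENNReal.tsum_mul_left]
        refine tsum_congr fun x => ?_
        show ‖c * B φ x‖ₑ = _
        rw [enorm_mul, ← ofReal_norm c, Real.norm_eq_abs]
    _ ≤ ENNReal.ofReal |c| * (ENNReal.ofReal C * l1 φ) := mul_le_mul_right (h.2 φ) _
    _ = ENNReal.ofReal (|c| * C) * l1 φ := by rw [ENNReal.ofReal_mul (abs_nonneg _), mul_assoc]

theorem BB.neg {B : Module.End ℝ (V → ℝ)} {C : ℝ} (h : BB B C) : BB (-B) C := by
  have h1 := h.smul (-1)
  have h2 : (-1 : ℝ) • B = -B := by module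
  rwa [h2, abs_neg, abs_one, one_mul] at h1

theorem BB.sub {B B' : Module.End ℝ (V → ℝ)} {C C' : ℝ} (h : BB B C) (h' : BB B' C') :
    BB (B - B') (C + C') := by
  rw [sub_eq_add_neg]; exact h.add h'.neg

theorem BB.sum {ι : Type*} (s : Finset ι) (B : ι → Module.End ℝ (V → ℝ)) (C : ι → ℝ)
    (h : ∀ i ∈ s, BB (B i) (C i)) : BB (∑ i ∈ s, B i) (∑ i ∈ s, C i) := by
  induction s using Finset.induction_on with
  | empty => rw [Finset.sum_empty, Finset.sum_empty]; exact BB.zero
  | insert a s ha ih =>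
    rw [Finset.sum_insert ha, Finset.sum_insert ha]
    exact (h a (Finset.mem_insert_self _ _)).add
      (ih fun i hi => h i (Finset.mem_insert_of_mem hi))

/-- total variation of binomial coefficients -/
theorem BB_binomial {A A' : Module.End ℝ (V → ℝ)} (hA : BB A 1) (hA' : BB A' 1)
    (hcomm : Commute A A') (m : ℕ) :
    BB ((A - A') * (A + A') ^ (2 * m)) (2 * ((2 * m).choose m : ℝ)) := by
  set n := 2 * m with hn
  let f : ℕ → ℝ := fun k => (n.choose k : ℝ)
  let U : ℕ → Module.End ℝ (V → ℝ) := fun k => A ^ k * A' ^ (n + 1 - k)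
  have hU : ∀ k, BB (U k) 1 := fun k => by
    have := (hA.pow_one k).mul (hA'.pow_one (n + 1 - k))
    rwa [one_mul] at this
  let Sm : ℕ → Module.End ℝ (V → ℝ) := fun r => ∑ k ∈ Finset.range r, f k • (U (k + 1) - U k)
  have hSsucc : ∀ r, Sm (r + 1) = Sm r + f r • (U (r + 1) - U r) := fun r =>
    Finset.sum_range_succ _ _
  have hf0 : ∀ k, 0 ≤ f k := fun k => Nat.cast_nonneg _
  have hid : (A - A') * (A + A') ^ n = Sm (n + 1) := by
    rw [hcomm.add_pow, Finset.mul_sum]
    refine Finset.sum_congr rfl fun k hk => ?_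
    rw [Finset.mem_range] at hk
    have h1 : U (k + 1) = A ^ (k + 1) * A' ^ (n - k) := by
      show A ^ (k + 1) * A' ^ (n + 1 - (k + 1)) = _
      congr 2
      omega
    have h2 : U k = A ^ k * A' ^ (n - k + 1) := by
      show A ^ k * A' ^ (n + 1 - k) = _
      congr 2
      omega
    have h3 : A' * (A ^ k * A' ^ (n - k)) = A ^ k * A' ^ (n - k + 1) := by
      rw [← mul_assoc, ← (hcomm.pow_left k).eq, mul_assoc, ← pow_succ']
    have h4 : A * (A ^ k * A' ^ (n - k)) = A ^ (k + 1) * A' ^ (n - k) := by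
      rw [← mul_assoc, ← pow_succ']
    have h5 : ((n.choose k : ℕ) : Module.End ℝ (V → ℝ)) = f k • 1 := by
      ext φ x
      simp [f]
    rw [h1, h2, h5, mul_smul_comm, mul_one, mul_smul_comm, sub_mul, h3, h4]
  have hup : ∀ r, r ≤ m → BB (Sm r - f r • U r) (f r) := by
    intro r
    induction r with
    | zero =>
      intro _
      have h1 : Sm 0 - f 0 • U 0 = (-f 0) • U 0 := by
        show (∑ k ∈ Finset.range 0, f k • (U (k + 1) - U k)) - f 0 • U 0 = _
        rw [Finset.range_zero, Finset.sum_empty]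
        module
      rw [h1]
      have := (hU 0).smul (-f 0)
      rwa [abs_neg, abs_of_nonneg (hf0 0), mul_one] at this
    | succ r ih =>
      intro hr
      have h1 : Sm (r + 1) - f (r + 1) • U (r + 1) =
          (Sm r - f r • U r) - (f (r + 1) - f r) • U (r + 1) := by
        rw [hSsucc]
        module
      have hle : f r ≤ f (r + 1) := by
        have := Nat.choose_le_succ_of_lt_half_left (r := r) (n := n) (by omega)
        simp only [f]
        exact_mod_cast this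
      rw [h1]
      have h2 := (ih (by omega)).sub ((hU (r + 1)).smul (f (r + 1) - f r))
      rw [abs_of_nonneg (by linarith), mul_one] at h2
      have h3 : f r + (f (r + 1) - f r) = f (r + 1) := by ring
      rwa [h3] at h2
  have hdown : ∀ r, m ≤ r → r ≤ n + 1 → BB (Sm r - f r • U r) (2 * f m - f r) := by
    intro r hr
    induction r, hr using Nat.le_induction with
    | base =>
      intro _
      have h1 := hup m le_rfl
      have h2 : 2 * f m - f m = f m := by ring
      rwa [h2]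
    | succ r hr ih =>
      intro hrn
      have h1 : Sm (r + 1) - f (r + 1) • U (r + 1) =
          (Sm r - f r • U r) - (f (r + 1) - f r) • U (r + 1) := by
        rw [hSsucc]
        module
      have hle : f (r + 1) ≤ f r := by
        simp only [f]
        rcases Nat.lt_or_ge n (r + 1) with h4 | h4
        · rw [Nat.choose_eq_zero_of_lt h4]
          exact_mod_cast Nat.zero_le _
        · have h5 := Nat.choose_le_succ_of_lt_half_left (r := n - (r + 1)) (n := n) (by omega)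
          have h6 : n.choose (n - (r + 1)) = n.choose (r + 1) := Nat.choose_symm h4
          have h7 : n.choose (n - (r + 1) + 1) = n.choose r := by
            have : n - (r + 1) + 1 = n - r := by omega
            rw [this]
            exact Nat.choose_symm (by omega)
          rw [h6, h7] at h5
          exact_mod_cast h5
      rw [h1]
      have h2 := (ih (by omega)).sub ((hU (r + 1)).smul (f (r + 1) - f r))
      rw [abs_of_nonpos (by linarith), mul_one] at h2
      have h3 : 2 * f m - f r + -(f (r + 1) - f r) = 2 * f m - f (r + 1) := by ring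
      rwa [h3] at h2
  rw [hid]
  have h1 := hdown (n + 1) (by omega) le_rfl
  have h2 : f (n + 1) = 0 := by
    simp only [f]
    rw [Nat.choose_eq_zero_of_lt (by omega)]
    simp
  rw [h2, zero_smul, sub_zero, sub_zero] at h1
  exact h1

/-- normalized central binomial coefficients -/
def cb (m : ℕ) : ℝ := ((2 * m).choose m : ℝ) / 4 ^ m

theorem cb_nonneg (m : ℕ) : 0 ≤ cb m := by unfold cb; positivity

theorem cb_succ (m : ℕ) : cb (m + 1) * (2 * m + 2) = cb m * (2 * m + 1) := by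
  have h := Nat.succ_mul_centralBinom_succ m
  rw [Nat.centralBinom, Nat.centralBinom] at h
  have h' : ((m : ℝ) + 1) * ((2 * (m + 1)).choose (m + 1) : ℝ) =
      2 * (2 * m + 1) * ((2 * m).choose m : ℝ) := by exact_mod_cast h
  unfold cb
  rw [pow_succ]
  field_simp
  linarith

theorem cb_sq_le (m : ℕ) : cb m ^ 2 * (2 * m + 1) ≤ 1 := by
  induction m with
  | zero => simp [cb]
  | succ m ih =>
    have h1 := cb_succ m
    have h2 := cb_nonneg m
    have h3 := cb_nonneg (m + 1)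
    have hm : (0 : ℝ) ≤ m := Nat.cast_nonneg m
    have h4 : cb (m + 1) ^ 2 * (2 * m + 2) ^ 2 = cb m ^ 2 * (2 * m + 1) ^ 2 := by
      rw [← mul_pow, ← mul_pow, h1]
    have h5 : cb (m + 1) ^ 2 * (2 * m + 2) ^ 2 ≤ 2 * m + 1 := by
      rw [h4]; nlinarith
    push_cast
    have h6 : cb (m + 1) ^ 2 * (2 * m + 2) ^ 2 * (2 * m + 3) ≤ (2 * m + 1) * (2 * m + 3) :=
      mul_le_mul_of_nonneg_right h5 (by linarith)
    have h7 : ((2 * (m : ℝ) + 1) * (2 * m + 3)) ≤ (2 * m + 2) ^ 2 := by nlinarith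
    have h8 : (0 : ℝ) < (2 * (m : ℝ) + 2) ^ 2 := by positivity
    have h9 : cb (m + 1) ^ 2 * (2 * (m + 1) + 1) * (2 * m + 2) ^ 2 ≤ 1 * (2 * m + 2) ^ 2 := by
      calc cb (m + 1) ^ 2 * (2 * (m + 1) + 1) * (2 * (m : ℝ) + 2) ^ 2
          = cb (m + 1) ^ 2 * (2 * m + 2) ^ 2 * (2 * m + 3) := by ring
        _ ≤ _ := by linarith
    exact le_of_mul_le_mul_right h9 h8

theorem BB_half {A A' : Module.End ℝ (V → ℝ)} (hA : BB A 1) (hA' : BB A' 1)
    (hcomm : Commute A A') (m : ℕ) :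
    BB ((A - A') * ((1 / 2 : ℝ) • (A + A')) ^ (2 * m)) (2 * cb m) := by
  have h1 := (BB_binomial hA hA' hcomm m).smul ((1 / 2 : ℝ) ^ (2 * m))
  have h2 : (A - A') * ((1 / 2 : ℝ) • (A + A')) ^ (2 * m) =
      ((1 / 2 : ℝ) ^ (2 * m)) • ((A - A') * (A + A') ^ (2 * m)) := by
    rw [smul_pow, mul_smul_comm]
  rw [h2]
  refine h1.mono (le_of_eq ?_)
  unfold cb
  rw [abs_of_nonneg (by positivity), pow_mul]
  rw [show ((1 / 2 : ℝ)) ^ 2 = 1 / 4 by norm_num, one_div, inv_pow]
  field_simp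

/-- decay of the third differences -/
def aa (j : ℕ) : ℝ := (2 * cb (j / 6)) ^ 3

theorem aa_nonneg (j : ℕ) : 0 ≤ aa j := pow_nonneg (mul_nonneg (by norm_num) (cb_nonneg _)) _

theorem BB_third {A A' : Module.End ℝ (V → ℝ)} (hA : BB A 1) (hA' : BB A' 1)
    (hcomm : Commute A A') (j : ℕ) :
    BB (((1 / 2 : ℝ) • (A + A')) ^ j * (A - A') ^ 3) (aa j) := by
  set B := (1 / 2 : ℝ) • (A + A') with hB
  set m := j / 6 with hm
  have hBB : BB B 1 := by
    have := (hA.add hA').smul (1 / 2 : ℝ)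
    refine this.mono (le_of_eq ?_)
    rw [abs_of_nonneg (by norm_num)]; norm_num
  have hc1 : Commute A (A - A') := (Commute.refl A).sub_right hcomm
  have hc2 : Commute A' (A - A') := hcomm.symm.sub_right (Commute.refl A')
  have hc : Commute B (A - A') := (hc1.add_left hc2).smul_left _
  have hj : j = 6 * m + j % 6 := (Nat.div_add_mod j 6).symm
  have e : B ^ j * (A - A') ^ 3 = B ^ (j % 6) * ((A - A') * B ^ (2 * m)) ^ 3 := by
    have h1 : Commute (A - A') (B ^ (2 * m)) := (hc.pow_left _).symm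
    rw [h1.mul_pow, ← pow_mul, ← ((hc.pow_left _).pow_right 3).eq, ← mul_assoc, ← pow_add]
    congr 2
    omega
  rw [e]
  have h2 := (hBB.pow_one (j % 6)).mul ((BB_half hA hA' hcomm m).pow 3)
  rw [one_mul] at h2
  exact h2

theorem summable_aa : Summable aa := by
  have h1 : ∀ j : ℕ, aa j ≤ 8 * 6 ^ (3 / 2 : ℝ) * (1 / ((j + 1 : ℕ) : ℝ) ^ (3 / 2 : ℝ)) := by
    intro j
    set m := j / 6 with hm
    have hmj : j + 1 ≤ 6 * (2 * m + 1) := by omega
    have hmr : ((j + 1 : ℕ) : ℝ) ≤ 6 * (2 * m + 1) := by exact_mod_cast hmj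
    have hj0 : (0 : ℝ) < ((j + 1 : ℕ) : ℝ) := by positivity
    have h2m : (0 : ℝ) < 2 * (m : ℝ) + 1 := by positivity
    have h2 : cb m ≤ (2 * (m : ℝ) + 1) ^ (-(1 / 2) : ℝ) := by
      have h3 := cb_sq_le m
      have h4 : cb m ^ 2 ≤ ((2 * (m : ℝ) + 1) ^ (-(1 / 2) : ℝ)) ^ 2 := by
        rw [← Real.rpow_natCast, ← Real.rpow_natCast, ← Real.rpow_mul h2m.le]
        norm_num
        rw [Real.rpow_neg_one, ← one_div, le_div_iff₀ h2m]
        exact h3
      exact (pow_le_pow_iff_left₀ (cb_nonneg m) (by positivity) (by norm_num)).1 h4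
    have h5 : aa j ≤ 8 * (2 * (m : ℝ) + 1) ^ (-(3 / 2) : ℝ) := by
      have h6 : (2 * cb m) ^ 3 ≤ (2 * (2 * (m : ℝ) + 1) ^ (-(1 / 2) : ℝ)) ^ 3 := by
        have := cb_nonneg m
        gcongr
      refine h6.trans (le_of_eq ?_)
      rw [mul_pow, ← Real.rpow_natCast ((2 * (m : ℝ) + 1) ^ (-(1 / 2) : ℝ)),
        ← Real.rpow_mul h2m.le]
      norm_num
    refine h5.trans ?_
    rw [Real.rpow_neg h2m.le, mul_assoc]
    refine mul_le_mul_of_nonneg_left ?_ (by norm_num)
    rw [mul_one_div, inv_eq_one_div, div_le_div_iff₀ (by positivity) (by positivity), one_mul,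
      ← Real.mul_rpow (by norm_num) h2m.le]
    exact Real.rpow_le_rpow hj0.le hmr (by norm_num)
  refine Summable.of_nonneg_of_le aa_nonneg h1 (Summable.mul_left _ ?_)
  exact (summable_nat_add_iff 1).2 (Real.summable_one_div_nat_rpow.2 (by norm_num))

/-- the weights of the binomial expansion -/
theorem summable_binomial {p : ℝ} (hp0 : 0 < p) (hp1 : p < 1) :
    Summable fun n : ℕ => ∑ ij ∈ Finset.HasAntidiagonal.antidiagonal n,
      ((ij.1 + ij.2).choose ij.1 : ℝ) * (p ^ ij.1 * (1 - p) ^ ij.2) * aa ij.1 := by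
  set F : ℕ × ℕ → ℝ := fun ij =>
    ((ij.1 + ij.2).choose ij.1 : ℝ) * (p ^ ij.1 * (1 - p) ^ ij.2) * aa ij.1 with hF
  have hr : ‖(1 - p)‖ < 1 := by
    rw [Real.norm_eq_abs, abs_of_nonneg (by linarith)]; linarith
  have hrow : ∀ i, HasSum (fun j => F (i, j)) (aa i / p) := by
    intro i
    have h1 := (hasSum_choose_mul_geometric_of_norm_lt_one i hr).mul_left (p ^ i * aa i)
    have h2 : p ^ i * aa i * (1 / (1 - (1 - p)) ^ (i + 1)) = aa i / p := by
      rw [sub_sub_cancel, pow_succ]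
      field_simp
    rw [h2] at h1
    have e : (fun j => F (i, j)) =
        fun j : ℕ => p ^ i * aa i * (((j + i).choose i : ℝ) * (1 - p) ^ j) := by
      funext j
      simp only [hF]
      rw [show (i + j).choose i = (j + i).choose i by rw [add_comm]]
      ring
    rw [e]
    exact h1
  have hF0 : 0 ≤ F := by
    intro ij
    simp only [hF]
    have h1 := aa_nonneg ij.1
    have h2 : 0 ≤ 1 - p := by linarith
    positivity
  have hsum : Summable F := by
    rw [summable_prod_of_nonneg hF0]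
    refine ⟨fun i => (hrow i).summable, ?_⟩
    have : (fun i => ∑' j, F (i, j)) = fun i => aa i / p := funext fun i => (hrow i).tsum_eq
    rw [this]
    exact summable_aa.div_const p
  have h1 : Summable fun x : Σ n : ℕ, Finset.HasAntidiagonal.antidiagonal n =>
      F (x.2 : ℕ × ℕ) :=
    Finset.HasAntidiagonal.sigmaAntidiagonalEquivProd.summable_iff.2 hsum
  have h2 := h1.sigma' fun n => (hasSum_fintype _).summable
  refine h2.congr fun n => ?_
  rw [tsum_fintype]
  exact Finset.sum_finset_coe F _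

end Bounded

/-! ### The lattice -/

variable {d : ℕ}

/-- translations -/
def tr (v : Fin d → ℤ) : Module.End ℝ ((Fin d → ℤ) → ℝ) where
  toFun φ := fun x => φ (x + v)
  map_add' _ _ := rfl
  map_smul' _ _ := rfl

theorem BB_tr (v : Fin d → ℤ) : BB (tr v) 1 := by
  refine ⟨zero_le_one, fun φ => ?_⟩
  rw [ENNReal.ofReal_one, one_mul]
  exact le_of_eq ((Equiv.addRight v).tsum_eq fun x => ‖φ x‖ₑ)

theorem tr_comm (v w : Fin d → ℤ) : Commute (tr v) (tr w) := by
  refine LinearMap.ext fun φ => funext fun x => ?_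
  show φ (x + v + w) = φ (x + w + v)
  rw [add_right_comm]

/-- the difference operator in the first direction -/
def SS (hd : 2 ≤ d) : Module.End ℝ ((Fin d → ℤ) → ℝ) :=
  tr (dir (⟨0, by omega⟩, true)) - tr (dir (⟨0, by omega⟩, false))

/-- the averaging operator in the first direction -/
def P1 (hd : 2 ≤ d) : Module.End ℝ ((Fin d → ℤ) → ℝ) :=
  (1 / 2 : ℝ) • (tr (dir (⟨0, by omega⟩, true)) + tr (dir (⟨0, by omega⟩, false)))

/-- the averaging operator in the other directions -/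
def Q1 (hd : 2 ≤ d) : Module.End ℝ ((Fin d → ℤ) → ℝ) :=
  (1 / (2 * ((d : ℝ) - 1))) •
    ∑ s ∈ Finset.univ.filter (fun s : Fin d × Bool => s.1 ≠ ⟨0, by omega⟩), tr (dir s)

/-- the averaging operator -/
def PP (d : ℕ) : Module.End ℝ ((Fin d → ℤ) → ℝ) := (1 / (2 * (d : ℝ))) • ∑ s, tr (dir s)

theorem BB_P1 (hd : 2 ≤ d) : BB (P1 hd) 1 := by
  have := ((BB_tr (dir (⟨0, by omega⟩, true))).add
    (BB_tr (d := d) (dir (⟨0, by omega⟩, false)))).smul (1 / 2 : ℝ)
  refine this.mono (le_of_eq ?_)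
  rw [abs_of_nonneg (by norm_num)]; norm_num

theorem card_others (hd : 2 ≤ d) :
    ((Finset.univ.filter (fun s : Fin d × Bool => s.1 ≠ ⟨0, by omega⟩)).card : ℝ) =
      2 * ((d : ℝ) - 1) := by
  have h1 : Finset.univ.filter (fun s : Fin d × Bool => s.1 ≠ ⟨0, by omega⟩) =
      (Finset.univ.erase (⟨0, by omega⟩ : Fin d)) ×ˢ (Finset.univ : Finset Bool) := by
    ext s
    simp
  rw [h1, Finset.card_product, Finset.card_erase_of_mem (Finset.mem_univ _), Finset.card_univ,
    Finset.card_univ, Fintype.card_fin, Fintype.card_bool]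
  have : 1 ≤ d := by omega
  push_cast [Nat.cast_sub this]
  ring

theorem BB_Q1 (hd : 2 ≤ d) : BB (Q1 hd) 1 := by
  have h1 := (BB.sum (Finset.univ.filter (fun s : Fin d × Bool => s.1 ≠ ⟨0, by omega⟩))
    (fun s => tr (dir s)) (fun _ => 1) fun s _ => BB_tr (dir s)).smul
    (1 / (2 * ((d : ℝ) - 1)))
  refine h1.mono (le_of_eq ?_)
  have hd' : (2 : ℝ) ≤ d := by exact_mod_cast hd
  rw [Finset.sum_const, nsmul_eq_mul, mul_one, card_others hd, abs_of_nonneg]
  · rw [one_div, inv_mul_cancel₀]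
    have : (d : ℝ) - 1 ≠ 0 := by linarith
    positivity
  · have : 0 ≤ (d : ℝ) - 1 := by linarith
    positivity

theorem PP_eq (hd : 2 ≤ d) :
    PP d = (1 / (d : ℝ)) • P1 hd + (1 - 1 / (d : ℝ)) • Q1 hd := by
  have hd' : (2 : ℝ) ≤ d := by exact_mod_cast hd
  have h1 : ∑ s : Fin d × Bool, tr (dir s) =
      (tr (dir (⟨0, by omega⟩, true)) + tr (dir (⟨0, by omega⟩, false))) +
      ∑ s ∈ Finset.univ.filter (fun s : Fin d × Bool => s.1 ≠ ⟨0, by omega⟩), tr (dir s) := by
    rw [← Finset.sum_filter_add_sum_filter_not Finset.univ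
      (fun s : Fin d × Bool => s.1 = ⟨0, by omega⟩)]
    congr 1
    have h2 : Finset.univ.filter (fun s : Fin d × Bool => s.1 = ⟨0, by omega⟩) =
        {(⟨0, by omega⟩, true), (⟨0, by omega⟩, false)} := by
      ext ⟨i, b⟩
      simp only [Finset.mem_filter, Finset.mem_univ, true_and, Finset.mem_insert,
        Finset.mem_singleton, Prod.mk.injEq]
      cases b <;> simp
    rw [h2, Finset.sum_pair]
    simp
  have h3 : (1 / (2 * (d : ℝ))) = (1 - 1 / (d : ℝ)) * (1 / (2 * ((d : ℝ) - 1))) := by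
    have : (d : ℝ) - 1 ≠ 0 := by linarith
    have : (d : ℝ) ≠ 0 := by linarith
    field_simp
  have h4 : (1 / (2 * (d : ℝ))) = (1 / (d : ℝ)) * (1 / 2) := by
    have : (d : ℝ) ≠ 0 := by linarith
    field_simp
  unfold PP P1 Q1
  rw [h1, smul_add, smul_smul, smul_smul, ← h3, ← h4]

theorem comm_P1_Q1 (hd : 2 ≤ d) : Commute (P1 hd) (Q1 hd) := by
  unfold P1 Q1
  refine (Commute.smul_left ?_ _).smul_right _
  refine Commute.sum_right _ _ _ fun s _ => ?_
  exact (tr_comm _ _).add_left (tr_comm _ _)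

/-- bound for the powers of the averaging operator applied to third differences -/
theorem BB_pow (hd : 2 ≤ d) (n : ℕ) : BB (PP d ^ n * SS hd ^ 3)
    (∑ ij ∈ Finset.HasAntidiagonal.antidiagonal n, ((ij.1 + ij.2).choose ij.1 : ℝ) *
      ((1 / (d : ℝ)) ^ ij.1 * (1 - 1 / (d : ℝ)) ^ ij.2) * aa ij.1) := by
  have hd' : (2 : ℝ) ≤ d := by exact_mod_cast hd
  have hp0 : 0 ≤ 1 / (d : ℝ) := by positivity
  have hp1 : 0 ≤ 1 - 1 / (d : ℝ) := by
    rw [sub_nonneg, div_le_one (by linarith)]; linarith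
  have hc : Commute ((1 / (d : ℝ)) • P1 hd) ((1 - 1 / (d : ℝ)) • Q1 hd) :=
    ((comm_P1_Q1 hd).smul_left _).smul_right _
  rw [PP_eq hd, hc.add_pow', Finset.sum_mul]
  refine BB.sum _ _ _ fun ij hij => ?_
  rw [Finset.HasAntidiagonal.mem_antidiagonal] at hij
  have h1 : BB (P1 hd ^ ij.1 * SS hd ^ 3) (aa ij.1) :=
    BB_third (BB_tr _) (BB_tr _) (tr_comm _ _) ij.1
  have h2 := ((BB_Q1 hd).pow_one ij.2).mul h1
  rw [one_mul] at h2
  have h3 := h2.smul (((ij.1 + ij.2).choose ij.1 : ℝ) *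
      ((1 / (d : ℝ)) ^ ij.1 * (1 - 1 / (d : ℝ)) ^ ij.2))
  have e : n.choose ij.1 • (((1 / (d : ℝ)) • P1 hd) ^ ij.1 *
      ((1 - 1 / (d : ℝ)) • Q1 hd) ^ ij.2) * SS hd ^ 3 =
      (((ij.1 + ij.2).choose ij.1 : ℝ) * ((1 / (d : ℝ)) ^ ij.1 * (1 - 1 / (d : ℝ)) ^ ij.2)) •
        (Q1 hd ^ ij.2 * (P1 hd ^ ij.1 * SS hd ^ 3)) := by
    rw [smul_pow, smul_pow, smul_mul_smul_comm, ← hij, ((comm_P1_Q1 hd).pow_pow _ _).eq,
      ← Nat.cast_smul_eq_nsmul ℝ, smul_smul, smul_mul_assoc, mul_assoc (Q1 hd ^ ij.2)]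
  rw [e]
  rwa [abs_of_nonneg (by positivity)] at h3

end

end Pool.Agent.V11324.Rotor
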