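import Mathlib
import Pool.Agent.V11324.Rotor.Heat

set_option autoImplicit false

/-! A summable function on the lattice with integral Laplacian and non-integral values. -/

namespace Pool.Agent.V11324.Rotor

open Filter Topology
open scoped ENNReal

noncomputable section

attribute [local instance] Classical.propDecidable

variable {d : ℕ}

/-- the indicator of `a` -/
def del (a : Fin d → ℤ) : (Fin d → ℤ) → ℝ := fun x => if x = a then 1 else 0

/-- third differences of the indicator of `a` -/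
def gg (hd : 2 ≤ d) (a : Fin d → ℤ) : (Fin d → ℤ) → ℝ := (SS hd ^ 3) (del a)

/-- the powers -/
def pg (hd : 2 ≤ d) (a : Fin d → ℤ) (n : ℕ) : (Fin d → ℤ) → ℝ := (PP d ^ n) (gg hd a)

/-- the homoclinic function -/
def hh (hd : 2 ≤ d) (a : Fin d → ℤ) (x : Fin d → ℤ) : ℝ := ∑' n, pg hd a n x

theorem l1_del (a : Fin d → ℤ) : l1 (del a) = 1 := by
  unfold l1
  rw [tsum_eq_single a]
  · simp [del]
  · intro x hx
    simp [del, hx]

theorem SS_apply (hd : 2 ≤ d) (φ : (Fin d → ℤ) → ℝ) (x : Fin d → ℤ) :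
    SS hd φ x = φ (x + dir (⟨0, by omega⟩, true)) - φ (x + dir (⟨0, by omega⟩, false)) := rfl

theorem PP_apply (φ : (Fin d → ℤ) → ℝ) (x : Fin d → ℤ) :
    PP d φ x = (1 / (2 * (d : ℝ))) * ∑ s, φ (x + dir s) := by
  unfold PP
  show (1 / (2 * (d : ℝ))) * (∑ s, tr (dir s)) φ x = _
  rw [LinearMap.sum_apply, Finset.sum_apply]
  rfl

/-- bounds -/
theorem exists_bound (hd : 2 ≤ d) (a : Fin d → ℤ) : ∃ b : ℕ → ℝ, Summable b ∧ (∀ n, 0 ≤ b n) ∧
    ∀ n, l1 (pg hd a n) ≤ ENNReal.ofReal (b n) := by
  have hd' : (2 : ℝ) ≤ d := by exact_mod_cast hd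
  refine ⟨_, summable_binomial (p := 1 / (d : ℝ)) (by positivity) ?_, fun n => (BB_pow hd n).1,
    fun n => ?_⟩
  · rw [div_lt_one (by linarith)]; linarith
  · have h := (BB_pow hd n).2 (del a)
    rw [l1_del, mul_one] at h
    exact h

theorem enorm_le_l1 {V : Type} (φ : V → ℝ) (x : V) : ‖φ x‖ₑ ≤ l1 φ :=
  ENNReal.le_tsum (f := fun x => ‖φ x‖ₑ) x

theorem summable_pg (hd : 2 ≤ d) (a x : Fin d → ℤ) : Summable fun n => pg hd a n x := by
  obtain ⟨b, hb, hb0, h⟩ := exists_bound hd a
  refine Summable.of_norm_bounded hb fun n => ?_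
  have h1 := (enorm_le_l1 (pg hd a n) x).trans (h n)
  rw [← ofReal_norm, ENNReal.ofReal_le_ofReal_iff (hb0 n)] at h1
  exact h1

theorem summable_hh (hd : 2 ≤ d) (a : Fin d → ℤ) : Summable fun x => |hh hd a x| := by
  obtain ⟨b, hb, hb0, h⟩ := exists_bound hd a
  have h1 : ∑' x, ‖hh hd a x‖ₑ ≠ ∞ := by
    refine ne_top_of_le_ne_top ?_ (ENNReal.tsum_le_tsum fun x =>
      enorm_tsum_le_tsum_enorm (f := fun n => pg hd a n x))
    rw [ENNReal.tsum_comm]
    refine ne_top_of_le_ne_top ?_ (ENNReal.tsum_le_tsum fun n => h n)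
    rw [← ENNReal.ofReal_tsum_of_nonneg hb0 hb]
    exact ENNReal.ofReal_ne_top
  have h2 : Summable fun x => ‖hh hd a x‖₊ := ENNReal.tsum_coe_ne_top_iff_summable.1 h1
  have h3 := NNReal.summable_coe.2 h2
  exact h3

/-- the equation satisfied by the homoclinic function -/
theorem laplace (hd : 2 ≤ d) (a x : Fin d → ℤ) :
    ∑ s, (hh hd a (x + dir s) - hh hd a x) = -(2 * d) * gg hd a x := by
  have hd' : (2 : ℝ) ≤ d := by exact_mod_cast hd
  have h1 : ∑ s, hh hd a (x + dir s) = 2 * d * ∑' n, pg hd a (n + 1) x := by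
    unfold hh
    rw [← Summable.tsum_finsetSum fun s _ => summable_pg hd a (x + dir s), ← tsum_mul_left]
    refine tsum_congr fun n => ?_
    have h2 : pg hd a (n + 1) x = (1 / (2 * (d : ℝ))) * ∑ s, pg hd a n (x + dir s) := by
      rw [← PP_apply]
      show (PP d ^ (n + 1)) (gg hd a) x = PP d ((PP d ^ n) (gg hd a)) x
      rw [pow_succ']
      rfl
    rw [h2]
    field_simp
  have h3 : hh hd a x = gg hd a x + ∑' n, pg hd a (n + 1) x := by
    unfold hh
    rw [(summable_pg hd a x).tsum_eq_zero_add]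
    rfl
  rw [Finset.sum_sub_distrib, h1, Finset.sum_const, Finset.card_univ, Fintype.card_prod,
    Fintype.card_fin, Fintype.card_bool, nsmul_eq_mul, h3]
  push_cast
  ring

/-- integrality -/
theorem gg_int (hd : 2 ≤ d) (a x : Fin d → ℤ) : ∃ n : ℤ, gg hd a x = n := by
  have h : ∀ φ : (Fin d → ℤ) → ℝ, (∀ x, ∃ n : ℤ, φ x = n) → ∀ x, ∃ n : ℤ, SS hd φ x = n := by
    intro φ hφ x
    rw [SS_apply]
    obtain ⟨n, hn⟩ := hφ (x + dir (⟨0, by omega⟩, true))
    obtain ⟨m, hm⟩ := hφ (x + dir (⟨0, by omega⟩, false))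
    exact ⟨n - m, by rw [hn, hm]; push_cast; ring⟩
  have h0 : ∀ x, ∃ n : ℤ, del a x = n := by
    intro x
    unfold del
    split_ifs
    · exact ⟨1, by simp⟩
    · exact ⟨0, by simp⟩
  exact h _ (h _ (h _ h0)) x

/-- the support of `gg` lies in one layer -/
theorem gg_layer (hd : 2 ≤ d) (a x : Fin d → ℤ) (j : Fin d) (hj : j ≠ ⟨0, by omega⟩)
    (hx : gg hd a x ≠ 0) : x j = a j := by
  by_contra hne
  have h : ∀ φ : (Fin d → ℤ) → ℝ, (∀ x, x j ≠ a j → φ x = 0) →
      ∀ x, x j ≠ a j → SS hd φ x = 0 := by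
    intro φ hφ x hx
    rw [SS_apply, hφ, hφ, sub_zero]
    · rw [Pi.add_apply, dir_apply, if_neg hj, add_zero]; exact hx
    · rw [Pi.add_apply, dir_apply, if_neg hj, add_zero]; exact hx
  have h0 : ∀ x, x j ≠ a j → del a x = 0 := by
    intro x hx
    unfold del
    rw [if_neg]
    rintro rfl
    exact hx rfl
  exact hx (h _ (h _ (h _ h0)) x hne)

/-- `gg` does not vanish -/
theorem gg_ne (hd : 2 ≤ d) (a : Fin d → ℤ) : ∃ x, gg hd a x ≠ 0 := by
  -- the maximal value of the first coordinate on the support of the iterated differences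
  have h : ∀ (φ : (Fin d → ℤ) → ℝ) (y : Fin d → ℤ), φ y ≠ 0 →
      (∀ x, y ⟨0, by omega⟩ < x ⟨0, by omega⟩ → φ x = 0) →
      SS hd φ (y + dir (⟨0, by omega⟩, true)) ≠ 0 ∧
      ∀ x, (y + dir ((⟨0, by omega⟩ : Fin d), true) : Fin d → ℤ) ⟨0, by omega⟩ <
        x ⟨0, by omega⟩ → SS hd φ x = 0 := by
    intro φ y hy hmax
    have e1 : (y + dir ((⟨0, by omega⟩ : Fin d), true)) ⟨0, by omega⟩ = y ⟨0, by omega⟩ + 1 := by
      rw [Pi.add_apply, dir_apply]; simp
    constructor
    · rw [SS_apply, hmax, zero_sub, neg_ne_zero]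
      · have e : y + dir ((⟨0, by omega⟩ : Fin d), true) + dir (⟨0, by omega⟩, false) = y := by
          have := dir_opp ((⟨0, by omega⟩ : Fin d), true)
          have h2 : opp ((⟨0, by omega⟩ : Fin d), true) = (⟨0, by omega⟩, false) := rfl
          rw [h2] at this
          rw [this]; abel
        rw [e]; exact hy
      · rw [Pi.add_apply, e1, dir_apply]
        simp
    · intro x hx
      rw [e1] at hx
      rw [SS_apply, hmax, hmax, sub_zero]
      · rw [Pi.add_apply, dir_apply]
        simp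
        omega
      · rw [Pi.add_apply, dir_apply]
        simp
        omega
  have h0 : del a a ≠ 0 := by simp [del]
  have h0' : ∀ x, a ⟨0, by omega⟩ < x ⟨0, by omega⟩ → del a x = 0 := by
    intro x hx
    unfold del
    rw [if_neg]
    rintro rfl
    exact lt_irrefl _ hx
  obtain ⟨h1, h1'⟩ := h _ _ h0 h0'
  obtain ⟨h2, h2'⟩ := h _ _ h1 h1'
  obtain ⟨h3, -⟩ := h _ _ h2 h2'
  exact ⟨_, h3⟩

/-- the value at the centre -/
theorem hh_center (hd : 2 ≤ d) (a : Fin d → ℤ) : hh hd a a = 0 := by
  have e0 : ∀ (b : Bool) (x : Fin d → ℤ), a + (a - x) + dir ((⟨0, by omega⟩ : Fin d), b) =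
      a + (a - (x + dir (⟨0, by omega⟩, !b))) := by
    intro b x
    have h1 : dir ((⟨0, by omega⟩ : Fin d), !b) = -dir (⟨0, by omega⟩, b) :=
      dir_opp ((⟨0, by omega⟩ : Fin d), b)
    rw [h1]; abel
  have hS1 : ∀ φ : (Fin d → ℤ) → ℝ, (∀ x, φ (a + (a - x)) = φ x) →
      ∀ x, SS hd φ (a + (a - x)) = -SS hd φ x := by
    intro φ hφ x
    rw [SS_apply, SS_apply, e0, e0, hφ, hφ]
    simp only [Bool.not_true, Bool.not_false]
    ring
  have hS2 : ∀ φ : (Fin d → ℤ) → ℝ, (∀ x, φ (a + (a - x)) = -φ x) →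
      ∀ x, SS hd φ (a + (a - x)) = SS hd φ x := by
    intro φ hφ x
    rw [SS_apply, SS_apply, e0, e0, hφ, hφ]
    simp only [Bool.not_true, Bool.not_false]
    ring
  have h0 : ∀ x, del a (a + (a - x)) = del a x := by
    intro x
    unfold del
    congr 1
    refine propext ⟨fun h => ?_, fun h => ?_⟩
    · have : a - x = 0 := by simpa using h
      exact (sub_eq_zero.1 this).symm
    · rw [h]; simp
  have hg : ∀ x, gg hd a (a + (a - x)) = -gg hd a x := hS1 _ (hS2 _ (hS1 _ h0))
  have hP : ∀ φ : (Fin d → ℤ) → ℝ, (∀ x, φ (a + (a - x)) = -φ x) →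
      ∀ x, PP d φ (a + (a - x)) = -PP d φ x := by
    intro φ hφ x
    rw [PP_apply, PP_apply, ← mul_neg, ← Finset.sum_neg_distrib]
    congr 1
    have e : ∀ s, φ (a + (a - x) + dir s) = -φ (x + dir (opp s)) := by
      intro s
      rw [← hφ, dir_opp]
      congr 1
      abel
    rw [Finset.sum_congr rfl fun s _ => e s]
    let σ : (Fin d × Bool) ≃ (Fin d × Bool) := ⟨opp, opp, fun s => by simp [opp],
      fun s => by simp [opp]⟩
    exact σ.sum_comp fun s => -φ (x + dir s)
  have hn : ∀ n x, pg hd a n (a + (a - x)) = -pg hd a n x := by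
    intro n
    induction n with
    | zero => exact hg
    | succ n ih =>
      have e : pg hd a (n + 1) = PP d (pg hd a n) := by
        show (PP d ^ (n + 1)) (gg hd a) = PP d ((PP d ^ n) (gg hd a))
        rw [pow_succ']
        rfl
      rw [e]
      exact hP _ ih
  have h1 : ∀ n, pg hd a n a = 0 := by
    intro n
    have := hn n a
    rw [sub_self, add_zero] at this
    linarith
  unfold hh
  simp [h1]

/-- some difference is not an integer -/
theorem exists_nonint (hd : 2 ≤ d) (a : Fin d → ℤ) : ∃ (x : Fin d → ℤ) (s : Fin d × Bool),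
    ∀ n : ℤ, hh hd a (x + dir s) - hh hd a x ≠ n := by
  by_contra hcon
  push Not at hcon
  have hsum := summable_hh hd a
  have h0 : Tendsto (hh hd a) cofinite (𝓝 0) := by
    have := hsum.tendsto_cofinite_zero
    rwa [tendsto_zero_iff_abs_tendsto_zero]
  -- the other coordinate
  let j : Fin d := ⟨1, by omega⟩
  have hj : j ≠ ⟨0, by omega⟩ := by
    intro h
    have := congrArg Fin.val h
    simp [j] at this
  -- all values are integers
  have hint : ∀ x, ∃ n : ℤ, hh hd a x = n := by
    intro x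
    let y : ℕ → Fin d → ℤ := fun n => x + n • dir (j, true)
    have hy : Function.Injective y := by
      intro n m hnm
      have h1 := congrFun hnm j
      simp only [y, Pi.add_apply, Pi.smul_apply, dir_apply] at h1
      simpa using h1
    have h1 : ∀ n, ∃ k : ℤ, hh hd a x - hh hd a (y n) = k := by
      intro n
      induction n with
      | zero => exact ⟨0, by simp [y]⟩
      | succ n ih =>
        obtain ⟨k, hk⟩ := ih
        obtain ⟨m, hm⟩ := hcon (y n) (j, true)
        have e : y (n + 1) = y n + dir (j, true) := by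
          simp only [y]
          rw [succ_nsmul, add_assoc]
        refine ⟨k - m, ?_⟩
        rw [e]
        push_cast
        linarith
    have h2 : Tendsto (fun n => hh hd a x - hh hd a (y n)) atTop (𝓝 (hh hd a x - 0)) := by
      refine tendsto_const_nhds.sub ?_
      rw [← Nat.cofinite_eq_atTop]
      exact h0.comp hy.tendsto_cofinite
    rw [sub_zero] at h2
    have h3 : hh hd a x ∈ Set.range ((↑) : ℤ → ℝ) := by
      refine Int.isClosedEmbedding_coe_real.isClosed_range.mem_of_tendsto h2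
        (Eventually.of_forall fun n => ?_)
      obtain ⟨k, hk⟩ := h1 n
      exact ⟨k, hk.symm⟩
    obtain ⟨n, hn⟩ := h3
    exact ⟨n, hn.symm⟩
  -- finite support
  have hfin : {x | hh hd a x ≠ 0}.Finite := by
    have h1 : ∀ᶠ x in cofinite, |hh hd a x| < 1 := by
      have h2 := h0.abs
      rw [abs_zero] at h2
      exact h2.eventually (gt_mem_nhds (show (0 : ℝ) < 1 by norm_num))
    refine (mem_cofinite.1 h1).subset ?_
    intro x hx h2
    obtain ⟨n, hn⟩ := hint x
    have h3 : |hh hd a x| < 1 := h2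
    rw [hn] at h3
    have h4 : |n| < 1 := by exact_mod_cast h3
    apply hx
    rw [hn, Int.abs_lt_one_iff.1 h4]
    simp
  have hne : {x | hh hd a x ≠ 0}.Nonempty := by
    by_contra hempty
    rw [Set.not_nonempty_iff_eq_empty] at hempty
    have h1 : ∀ x, hh hd a x = 0 := by
      intro x
      by_contra hx
      have : x ∈ {x | hh hd a x ≠ 0} := hx
      rw [hempty] at this
      exact this
    obtain ⟨x, hx⟩ := gg_ne hd a
    have h2 := laplace hd a x
    simp only [h1, sub_zero, Finset.sum_const_zero] at h2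
    have hd' : (2 : ℝ) ≤ d := by exact_mod_cast hd
    have h3 : -(2 * (d : ℝ)) ≠ 0 := by
      have : (0 : ℝ) < 2 * d := by linarith
      linarith
    rcases mul_eq_zero.1 h2.symm with h4 | h4
    · exact h3 h4
    · exact hx h4
  -- the extreme layers
  have key : ∀ (b : Bool) (x : Fin d → ℤ), hh hd a x ≠ 0 →
      (∀ y, hh hd a y ≠ 0 → (if b then y j ≤ x j else x j ≤ y j)) →
      (x + dir (j, b)) j = a j := by
    intro b x hx hext
    have hz : ∀ z : Fin d → ℤ, (if b then x j < z j else z j < x j) → hh hd a z = 0 := by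
      intro z hz
      by_contra hz0
      have := hext z hz0
      cases b
      · simp at hz this; omega
      · simp at hz this; omega
    have h1 : ∀ s, s ≠ (j, !b) → hh hd a (x + dir (j, b) + dir s) = 0 := by
      intro s hs
      apply hz
      rw [Pi.add_apply, Pi.add_apply, dir_apply, dir_apply]
      obtain ⟨i, c⟩ := s
      cases b <;> cases c <;> by_cases hij : j = i <;> simp [hij] <;> simp_all
    have h2 : hh hd a (x + dir (j, b)) = 0 := by
      apply hz
      rw [Pi.add_apply, dir_apply]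
      cases b <;> simp
    have h3 : ∑ s, (hh hd a (x + dir (j, b) + dir s) - hh hd a (x + dir (j, b))) = hh hd a x := by
      rw [Finset.sum_eq_single (j, !b)]
      · have e : x + dir (j, b) + dir (j, !b) = x := by
          have h4 : dir (j, !b) = -dir (j, b) := dir_opp (j, b)
          rw [h4]; abel
        rw [e, h2, sub_zero]
      · intro s _ hs
        rw [h1 s hs, h2, sub_zero]
      · intro h; exact absurd (Finset.mem_univ _) h
    rw [laplace] at h3
    refine gg_layer hd a _ j hj ?_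
    intro h4
    rw [h4, mul_zero] at h3
    exact hx h3.symm
  obtain ⟨x1, hx1, hmax⟩ := Set.exists_max_image _ (fun x : Fin d → ℤ => x j) hfin hne
  obtain ⟨x2, hx2, hmin⟩ := Set.exists_min_image _ (fun x : Fin d → ℤ => x j) hfin hne
  have h1 := key true x1 hx1 (fun y hy => by simpa using hmax y hy)
  have h2 := key false x2 hx2 (fun y hy => by simpa using hmin y hy)
  have h3 := hmin x1 hx1
  rw [Pi.add_apply, dir_apply] at h1 h2
  simp at h1 h2
  omega

end

end Pool.Agent.V11324.Rotor
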